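import Pool.Agent.Helper30.AF.Alt22A

/-!
Invariant tensors on `⋀² ⊗ ⋀²` of a four-dimensional space: the two types of principal triples.
-/

namespace Pool.Agent.Helper30.AF

set_option linter.unusedSimpArgs false

/-- the diagonal matrix -/
def dg (w : Fin 4 → ℂ) (a i : Fin 4) : ℂ := if a = i then w i else 0

/-- the lowering matrix with one block of size four -/
def fA : Fin 4 → Fin 4 → ℂ := ![![0, 0, 0, 0], ![1, 0, 0, 0], ![0, 1, 0, 0], ![0, 0, 1, 0]]

/-- the lowering matrix with blocks of size three and one -/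
def fB : Fin 4 → Fin 4 → ℂ := ![![0, 0, 0, 0], ![1, 0, 0, 0], ![0, 1, 0, 0], ![0, 0, 0, 0]]

/-- `X` is skew for the bilinear form `G` -/
def Skew (G X : Fin 4 → Fin 4 → ℂ) : Prop :=
  ∀ i j, ∑ a, X a i * G a j + ∑ a, X a j * G i a = 0

variable {R : Fin 4 → Fin 4 → Fin 4 → Fin 4 → ℂ}

lemma EqX.diag {w : Fin 4 → ℂ} (h : EqX R (dg w)) (i j k l : Fin 4) :
    (w i + w j - w k - w l) * R i j k l = 0 := by
  have h1 := h i j k l
  simp only [dg, ite_mul, zero_mul, Finset.sum_ite_eq, Finset.sum_ite_eq', Finset.mem_univ,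
    if_true] at h1
  linear_combination h1

lemma zero_of_mul {c x : ℂ} (h : c * x = 0) (hc : c ≠ 0) : x = 0 :=
  (mul_eq_zero.mp h).resolve_left hc

/-- the tensor is scalar -/
def Scal (R : Fin 4 → Fin 4 → Fin 4 → Fin 4 → ℂ) : Prop :=
  ∃ a : ℂ, ∀ i j k l, R i j k l =
      a * ((if i = k then 1 else 0) * (if j = l then 1 else 0) -
        (if i = l then 1 else 0) * (if j = k then 1 else 0))


theorem algA (hR : Alt R) (S : Set (Fin 4 → Fin 4 → ℂ)) (hS : ∀ X ∈ S, EqX R X)
    (htr : ∀ X ∈ S, X 0 0 + X 1 1 + X 2 2 + X 3 3 = 0)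
    {w : Fin 4 → ℂ} (w0 : w 0 = 3) (w1 : w 1 = 1) (w2 : w 2 = -1) (w3 : w 3 = -3)
    (hH : dg w ∈ S) (hF : fA ∈ S) :
    Scal R ∨ (∃ G : Fin 4 → Fin 4 → ℂ, G ≠ 0 ∧ ∀ X ∈ S, Skew G X) := by
  obtain ⟨p1, p2, p3, p4, p5, p6⟩ := hR.red1
  obtain ⟨q1, q2, q3, q4, q5, q6⟩ := hR.red2
  have d1 := hR.d1
  have d2 := hR.d2
  have hh := (hS _ hH).diag
  have hf := hS _ hF
  have h0102 : R 0 1 0 2 = 0 := by
    have h1 := hh 0 1 0 2
    rw [w0, w1, w2] at h1
    exact zero_of_mul h1 (by norm_num)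
  have h0103 : R 0 1 0 3 = 0 := by
    have h1 := hh 0 1 0 3
    rw [w0, w1, w3] at h1
    exact zero_of_mul h1 (by norm_num)
  have h0112 : R 0 1 1 2 = 0 := by
    have h1 := hh 0 1 1 2
    rw [w0, w1, w2] at h1
    exact zero_of_mul h1 (by norm_num)
  have h0113 : R 0 1 1 3 = 0 := by
    have h1 := hh 0 1 1 3
    rw [w0, w1, w3] at h1
    exact zero_of_mul h1 (by norm_num)
  have h0123 : R 0 1 2 3 = 0 := by
    have h1 := hh 0 1 2 3
    rw [w0, w1, w2, w3] at h1
    exact zero_of_mul h1 (by norm_num)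
  have h0201 : R 0 2 0 1 = 0 := by
    have h1 := hh 0 2 0 1
    rw [w0, w1, w2] at h1
    exact zero_of_mul h1 (by norm_num)
  have h0203 : R 0 2 0 3 = 0 := by
    have h1 := hh 0 2 0 3
    rw [w0, w2, w3] at h1
    exact zero_of_mul h1 (by norm_num)
  have h0212 : R 0 2 1 2 = 0 := by
    have h1 := hh 0 2 1 2
    rw [w0, w1, w2] at h1
    exact zero_of_mul h1 (by norm_num)
  have h0213 : R 0 2 1 3 = 0 := by
    have h1 := hh 0 2 1 3
    rw [w0, w1, w2, w3] at h1
    exact zero_of_mul h1 (by norm_num)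
  have h0223 : R 0 2 2 3 = 0 := by
    have h1 := hh 0 2 2 3
    rw [w0, w2, w3] at h1
    exact zero_of_mul h1 (by norm_num)
  have h0301 : R 0 3 0 1 = 0 := by
    have h1 := hh 0 3 0 1
    rw [w0, w1, w3] at h1
    exact zero_of_mul h1 (by norm_num)
  have h0302 : R 0 3 0 2 = 0 := by
    have h1 := hh 0 3 0 2
    rw [w0, w2, w3] at h1
    exact zero_of_mul h1 (by norm_num)
  have h0313 : R 0 3 1 3 = 0 := by
    have h1 := hh 0 3 1 3
    rw [w0, w1, w3] at h1
    exact zero_of_mul h1 (by norm_num)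
  have h0323 : R 0 3 2 3 = 0 := by
    have h1 := hh 0 3 2 3
    rw [w0, w2, w3] at h1
    exact zero_of_mul h1 (by norm_num)
  have h1201 : R 1 2 0 1 = 0 := by
    have h1 := hh 1 2 0 1
    rw [w0, w1, w2] at h1
    exact zero_of_mul h1 (by norm_num)
  have h1202 : R 1 2 0 2 = 0 := by
    have h1 := hh 1 2 0 2
    rw [w0, w1, w2] at h1
    exact zero_of_mul h1 (by norm_num)
  have h1213 : R 1 2 1 3 = 0 := by
    have h1 := hh 1 2 1 3
    rw [w1, w2, w3] at h1
    exact zero_of_mul h1 (by norm_num)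
  have h1223 : R 1 2 2 3 = 0 := by
    have h1 := hh 1 2 2 3
    rw [w1, w2, w3] at h1
    exact zero_of_mul h1 (by norm_num)
  have h1301 : R 1 3 0 1 = 0 := by
    have h1 := hh 1 3 0 1
    rw [w0, w1, w3] at h1
    exact zero_of_mul h1 (by norm_num)
  have h1302 : R 1 3 0 2 = 0 := by
    have h1 := hh 1 3 0 2
    rw [w0, w1, w2, w3] at h1
    exact zero_of_mul h1 (by norm_num)
  have h1303 : R 1 3 0 3 = 0 := by
    have h1 := hh 1 3 0 3
    rw [w0, w1, w3] at h1
    exact zero_of_mul h1 (by norm_num)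
  have h1312 : R 1 3 1 2 = 0 := by
    have h1 := hh 1 3 1 2
    rw [w1, w2, w3] at h1
    exact zero_of_mul h1 (by norm_num)
  have h1323 : R 1 3 2 3 = 0 := by
    have h1 := hh 1 3 2 3
    rw [w1, w2, w3] at h1
    exact zero_of_mul h1 (by norm_num)
  have h2301 : R 2 3 0 1 = 0 := by
    have h1 := hh 2 3 0 1
    rw [w0, w1, w2, w3] at h1
    exact zero_of_mul h1 (by norm_num)
  have h2302 : R 2 3 0 2 = 0 := by
    have h1 := hh 2 3 0 2
    rw [w0, w2, w3] at h1
    exact zero_of_mul h1 (by norm_num)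
  have h2303 : R 2 3 0 3 = 0 := by
    have h1 := hh 2 3 0 3
    rw [w0, w2, w3] at h1
    exact zero_of_mul h1 (by norm_num)
  have h2312 : R 2 3 1 2 = 0 := by
    have h1 := hh 2 3 1 2
    rw [w1, w2, w3] at h1
    exact zero_of_mul h1 (by norm_num)
  have h2313 : R 2 3 1 3 = 0 := by
    have h1 := hh 2 3 1 3
    rw [w1, w2, w3] at h1
    exact zero_of_mul h1 (by norm_num)
  have e1 := hf 0 1 0 2
  have e2 := hf 0 2 0 3
  have e3 := hf 0 2 1 2
  have e4 := hf 0 3 1 3
  have e5 := hf 1 2 1 3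
  have e6 := hf 1 3 2 3
  simp [Fin.sum_univ_four, fA, p1, p2, p3, p4, p5, p6, q1, q2, q3, q4, q5, q6, d1, d2, h0102, h0103, h0112, h0113, h0123, h0201, h0203, h0212, h0213, h0223, h0301, h0302, h0313, h0323, h1201, h1202, h1213, h1223, h1301, h1302, h1303, h1312, h1323, h2301, h2302, h2303, h2312, h2313] at e1 e2 e3 e4 e5 e6
  obtain ⟨a, ha⟩ : ∃ a, a = R 0 1 0 1 := ⟨_, rfl⟩
  obtain ⟨t, ht⟩ : ∃ t, t = R 0 3 0 3 := ⟨_, rfl⟩
  have h0101 : R 0 1 0 1 = a := ha.symm
  have h0303 : R 0 3 0 3 = t := ht.symm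
  have h0202 : R 0 2 0 2 = a := by linear_combination e1 + h0101
  have h1203 : R 1 2 0 3 = a - t := by linear_combination e2 + h0202 - h0303
  have h1212 : R 1 2 1 2 = t := by linear_combination (e3 + e4 - e5 - e2) / 2 + h0303
  have h0312 : R 0 3 1 2 = a - t := by linear_combination e3 + h0202 - h1212
  have h1313 : R 1 3 1 3 = a := by linear_combination e4 + h0303 + h0312
  have h2323 : R 2 3 2 3 = a := by linear_combination e6 + h1313
  by_cases hat : a - t = 0
  · left
    have hta : t = a := by linear_combination -hat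
    rw [hat] at h1203 h0312
    rw [hta] at h0303 h1212
    exact ⟨a, hR.scalar h0101 h0102 h0103 h0112 h0113 h0123 h0201 h0202 h0203 h0212 h0213 h0223 h0301 h0302 h0303 h0312 h0313 h0323 h1201 h1202 h1203 h1212 h1213 h1223 h1301 h1302 h1303 h1312 h1313 h1323 h2301 h2302 h2303 h2312 h2313 h2323⟩
  · right
    refine ⟨![![0, 0, 0, 1], ![0, 0, -1, 0], ![0, 1, 0, 0], ![-1, 0, 0, 0]], ?_, ?_⟩
    · intro h
      have := congrFun (congrFun h 0) 3
      simp at this
    · intro X hX
      have g1 := hS X hX 0 1 0 3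
      have g2 := hS X hX 0 2 0 3
      have g3 := hS X hX 0 3 1 2
      have g4 := hS X hX 1 3 0 3
      have g5 := hS X hX 2 3 0 3
      simp [Fin.sum_univ_four, p1, p2, p3, p4, p5, p6, q1, q2, q3, q4, q5, q6, d1, d2, h0101, h0102, h0103, h0112, h0113, h0123, h0201, h0202, h0203, h0212, h0213, h0223, h0301, h0302, h0303, h0312, h0313, h0323, h1201, h1202, h1203, h1212, h1213, h1223, h1301, h1302, h1303, h1312, h1313, h1323, h2301, h2302, h2303, h2312, h2313, h2323] at g1 g2 g3 g4 g5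
      have ht := htr X hX
      have k1 : X 2 0 + X 3 1 = 0 := zero_of_mul (c := a - t) (by linear_combination -g1) hat
      have k2 : X 1 0 - X 3 2 = 0 := zero_of_mul (c := a - t) (by linear_combination g2) hat
      have k3 : X 0 0 + X 3 3 = X 1 1 + X 2 2 := by
        rw [← sub_eq_zero]
        exact zero_of_mul (c := a - t) (by linear_combination g3) hat
      have k4 : X 0 1 - X 2 3 = 0 := zero_of_mul (c := a - t) (by linear_combination -g4) hat
      have k5 : X 0 2 + X 1 3 = 0 := zero_of_mul (c := a - t) (by linear_combination -g5) hat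
      intro i j
      fin_cases i <;> fin_cases j <;> simp [Fin.sum_univ_four]
      all_goals first
        | linear_combination k1
        | linear_combination -k1
        | linear_combination k2
        | linear_combination -k2
        | linear_combination (ht + k3) / 2
        | linear_combination (ht - k3) / 2
        | linear_combination -(ht + k3) / 2
        | linear_combination -(ht - k3) / 2
        | linear_combination k4
        | linear_combination -k4
        | linear_combination k5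
        | linear_combination -k5

theorem algB (hR : Alt R) (S : Set (Fin 4 → Fin 4 → ℂ)) (hS : ∀ X ∈ S, EqX R X)
    (htr : ∀ X ∈ S, X 0 0 + X 1 1 + X 2 2 + X 3 3 = 0)
    {w : Fin 4 → ℂ} (w0 : w 0 = 2) (w1 : w 1 = 0) (w2 : w 2 = -2) (w3 : w 3 = 0)
    (hH : dg w ∈ S) (hF : fB ∈ S) :
    Scal R ∨ (∃ G : Fin 4 → Fin 4 → ℂ, G ≠ 0 ∧ ∀ X ∈ S, Skew G X) ∨
      (∀ X ∈ S, X 3 0 = 0 ∧ X 3 1 = 0 ∧ X 3 2 = 0) ∨
      (∀ X ∈ S, X 0 3 = 0 ∧ X 1 3 = 0 ∧ X 2 3 = 0) := by
  obtain ⟨p1, p2, p3, p4, p5, p6⟩ := hR.red1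
  obtain ⟨q1, q2, q3, q4, q5, q6⟩ := hR.red2
  have d1 := hR.d1
  have d2 := hR.d2
  have hh := (hS _ hH).diag
  have hf := hS _ hF
  have h0102 : R 0 1 0 2 = 0 := by
    have h1 := hh 0 1 0 2
    rw [w0, w1, w2] at h1
    exact zero_of_mul h1 (by norm_num)
  have h0112 : R 0 1 1 2 = 0 := by
    have h1 := hh 0 1 1 2
    rw [w0, w1, w2] at h1
    exact zero_of_mul h1 (by norm_num)
  have h0113 : R 0 1 1 3 = 0 := by
    have h1 := hh 0 1 1 3
    rw [w0, w1, w3] at h1
    exact zero_of_mul h1 (by norm_num)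
  have h0123 : R 0 1 2 3 = 0 := by
    have h1 := hh 0 1 2 3
    rw [w0, w1, w2, w3] at h1
    exact zero_of_mul h1 (by norm_num)
  have h0201 : R 0 2 0 1 = 0 := by
    have h1 := hh 0 2 0 1
    rw [w0, w1, w2] at h1
    exact zero_of_mul h1 (by norm_num)
  have h0203 : R 0 2 0 3 = 0 := by
    have h1 := hh 0 2 0 3
    rw [w0, w2, w3] at h1
    exact zero_of_mul h1 (by norm_num)
  have h0212 : R 0 2 1 2 = 0 := by
    have h1 := hh 0 2 1 2
    rw [w0, w1, w2] at h1
    exact zero_of_mul h1 (by norm_num)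
  have h0223 : R 0 2 2 3 = 0 := by
    have h1 := hh 0 2 2 3
    rw [w0, w2, w3] at h1
    exact zero_of_mul h1 (by norm_num)
  have h0302 : R 0 3 0 2 = 0 := by
    have h1 := hh 0 3 0 2
    rw [w0, w2, w3] at h1
    exact zero_of_mul h1 (by norm_num)
  have h0312 : R 0 3 1 2 = 0 := by
    have h1 := hh 0 3 1 2
    rw [w0, w1, w2, w3] at h1
    exact zero_of_mul h1 (by norm_num)
  have h0313 : R 0 3 1 3 = 0 := by
    have h1 := hh 0 3 1 3
    rw [w0, w1, w3] at h1
    exact zero_of_mul h1 (by norm_num)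
  have h0323 : R 0 3 2 3 = 0 := by
    have h1 := hh 0 3 2 3
    rw [w0, w2, w3] at h1
    exact zero_of_mul h1 (by norm_num)
  have h1201 : R 1 2 0 1 = 0 := by
    have h1 := hh 1 2 0 1
    rw [w0, w1, w2] at h1
    exact zero_of_mul h1 (by norm_num)
  have h1202 : R 1 2 0 2 = 0 := by
    have h1 := hh 1 2 0 2
    rw [w0, w1, w2] at h1
    exact zero_of_mul h1 (by norm_num)
  have h1203 : R 1 2 0 3 = 0 := by
    have h1 := hh 1 2 0 3
    rw [w0, w1, w2, w3] at h1
    exact zero_of_mul h1 (by norm_num)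
  have h1213 : R 1 2 1 3 = 0 := by
    have h1 := hh 1 2 1 3
    rw [w1, w2, w3] at h1
    exact zero_of_mul h1 (by norm_num)
  have h1301 : R 1 3 0 1 = 0 := by
    have h1 := hh 1 3 0 1
    rw [w0, w1, w3] at h1
    exact zero_of_mul h1 (by norm_num)
  have h1303 : R 1 3 0 3 = 0 := by
    have h1 := hh 1 3 0 3
    rw [w0, w1, w3] at h1
    exact zero_of_mul h1 (by norm_num)
  have h1312 : R 1 3 1 2 = 0 := by
    have h1 := hh 1 3 1 2
    rw [w1, w2, w3] at h1
    exact zero_of_mul h1 (by norm_num)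
  have h1323 : R 1 3 2 3 = 0 := by
    have h1 := hh 1 3 2 3
    rw [w1, w2, w3] at h1
    exact zero_of_mul h1 (by norm_num)
  have h2301 : R 2 3 0 1 = 0 := by
    have h1 := hh 2 3 0 1
    rw [w0, w1, w2, w3] at h1
    exact zero_of_mul h1 (by norm_num)
  have h2302 : R 2 3 0 2 = 0 := by
    have h1 := hh 2 3 0 2
    rw [w0, w2, w3] at h1
    exact zero_of_mul h1 (by norm_num)
  have h2303 : R 2 3 0 3 = 0 := by
    have h1 := hh 2 3 0 3
    rw [w0, w2, w3] at h1
    exact zero_of_mul h1 (by norm_num)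
  have h2313 : R 2 3 1 3 = 0 := by
    have h1 := hh 2 3 1 3
    rw [w1, w2, w3] at h1
    exact zero_of_mul h1 (by norm_num)
  have e1 := hf 0 1 0 2
  have e2 := hf 0 2 1 2
  have e3 := hf 0 1 1 3
  have e4 := hf 0 2 2 3
  have e5 := hf 0 3 0 2
  have e6 := hf 1 3 1 2
  have e7 := hf 0 3 1 3
  have e8 := hf 1 3 2 3
  simp [Fin.sum_univ_four, fB, p1, p2, p3, p4, p5, p6, q1, q2, q3, q4, q5, q6, d1, d2, h0102, h0112, h0113, h0123, h0201, h0203, h0212, h0223, h0302, h0312, h0313, h0323, h1201, h1202, h1203, h1213, h1301, h1303, h1312, h1323, h2301, h2302, h2303, h2313] at e1 e2 e3 e4 e5 e6 e7 e8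
  obtain ⟨a, ha⟩ : ∃ a, a = R 0 1 0 1 := ⟨_, rfl⟩
  obtain ⟨q, hq⟩ : ∃ q, q = R 0 1 0 3 := ⟨_, rfl⟩
  obtain ⟨r, hr⟩ : ∃ r, r = R 0 3 0 1 := ⟨_, rfl⟩
  obtain ⟨u, hu⟩ : ∃ u, u = R 0 3 0 3 := ⟨_, rfl⟩
  have h0101 : R 0 1 0 1 = a := ha.symm
  have h0103 : R 0 1 0 3 = q := hq.symm
  have h0301 : R 0 3 0 1 = r := hr.symm
  have h0303 : R 0 3 0 3 = u := hu.symm
  have h0202 : R 0 2 0 2 = a := by linear_combination e1 + h0101
  have h1212 : R 1 2 1 2 = a := by linear_combination e2 + h0202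
  have h0213 : R 0 2 1 3 = q := by linear_combination e3 + h0103
  have h1223 : R 1 2 2 3 = q := by linear_combination e4 + h0213
  have h1302 : R 1 3 0 2 = r := by linear_combination e5 + h0301
  have h2312 : R 2 3 1 2 = r := by linear_combination e6 + h1302
  have h1313 : R 1 3 1 3 = u := by linear_combination e7 + h0303
  have h2323 : R 2 3 2 3 = u := by linear_combination e8 + h1313
  have key : ∀ X ∈ S, (q * X 1 3 = r * X 3 1 ∧ q * X 2 3 = - (r * X 3 0) ∧
      q * X 0 3 = - (r * X 3 2)) ∧ (q * (X 1 1 - X 3 3) = - ((u - a) * X 3 1) ∧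
      q * (X 1 0 - X 2 1) = - ((u - a) * X 3 0) ∧ q * (X 0 1 - X 1 2) = (u - a) * X 3 2) ∧
      (q * (X 1 1 - X 3 3) = (u - a) * X 3 1 ∧ q * (X 1 0 - X 2 1) = (u - a) * X 3 0 ∧
      q * (X 0 1 - X 1 2) = - ((u - a) * X 3 2)) ∧ q * X 2 0 = 0 ∧ q * X 0 2 = 0 ∧
      q * (X 0 0 + X 2 2 - X 1 1 - X 3 3) = 0 := by
    intro X hX
    have g1 := hS X hX 0 1 0 1
    have g2 := hS X hX 0 1 0 2
    have g3 := hS X hX 0 2 0 1
    have g4 := hS X hX 0 1 0 3
    have g5 := hS X hX 0 1 1 3
    have g6 := hS X hX 0 2 0 3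
    have g7 := hS X hX 1 2 2 3
    have g8 := hS X hX 0 2 2 3
    have g9 := hS X hX 1 2 1 3
    have g10 := hS X hX 0 1 2 3
    have g11 := hS X hX 1 2 0 3
    have g12 := hS X hX 0 2 1 3
    simp only [Fin.sum_univ_four, p1, p2, p3, p4, p5, p6, q1, q2, q3, q4, q5, q6, d1, d2, h0101, h0102, h0103, h0112, h0113, h0123, h0201, h0202, h0203, h0212, h0213, h0223, h0301, h0302, h0303, h0312, h0313, h0323, h1201, h1202, h1203, h1212, h1213, h1223, h1301, h1302, h1303, h1312, h1313, h1323, h2301, h2302, h2303, h2312, h2313, h2323] at g1 g2 g3 g4 g5 g6 g7 g8 g9 g10 g11 g12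
    refine ⟨⟨?_, ?_, ?_⟩, ⟨?_, ?_, ?_⟩, ⟨?_, ?_, ?_⟩, ?_, ?_, ?_⟩
    · linear_combination -g1
    · linear_combination -g2
    · linear_combination g3
    · linear_combination g4
    · linear_combination -g5
    · linear_combination -g6
    · linear_combination g7
    · linear_combination g8
    · linear_combination g9
    · linear_combination -g10 / 2
    · linear_combination -g11 / 2
    · linear_combination g12
  by_cases hq0 : q = 0
  · by_cases hr0 : r = 0
    · by_cases hu0 : u = a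
      · left
        rw [hq0] at h0103 h0213 h1223
        rw [hr0] at h0301 h1302 h2312
        rw [hu0] at h0303 h1313 h2323
        exact ⟨a, hR.scalar h0101 h0102 h0103 h0112 h0113 h0123 h0201 h0202 h0203 h0212 h0213 h0223 h0301 h0302 h0303 h0312 h0313 h0323 h1201 h1202 h1203 h1212 h1213 h1223 h1301 h1302 h1303 h1312 h1313 h1323 h2301 h2302 h2303 h2312 h2313 h2323⟩
      · right; right; left
        have hu1 : u - a ≠ 0 := sub_ne_zero.mpr hu0
        intro X hX
        obtain ⟨-, ⟨k1, k2, k3⟩, -⟩ := key X hX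
        rw [hq0] at k1 k2 k3
        exact ⟨zero_of_mul (c := u - a) (by first | linear_combination k2 | linear_combination -k2) hu1,
          zero_of_mul (c := u - a) (by first | linear_combination k1 | linear_combination -k1) hu1,
          zero_of_mul (c := u - a) (by first | linear_combination k3 | linear_combination -k3) hu1⟩
    · right; right; left
      intro X hX
      obtain ⟨⟨k1, k2, k3⟩, -⟩ := key X hX
      rw [hq0] at k1 k2 k3
      exact ⟨zero_of_mul (c := r) (by first | linear_combination k2 | linear_combination -k2) hr0,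
        zero_of_mul (c := r) (by first | linear_combination k1 | linear_combination -k1) hr0,
        zero_of_mul (c := r) (by first | linear_combination k3 | linear_combination -k3) hr0⟩
  · by_cases hr0 : r = 0
    · right; right; right
      intro X hX
      obtain ⟨⟨k1, k2, k3⟩, -⟩ := key X hX
      rw [hr0] at k1 k2 k3
      exact ⟨zero_of_mul (c := q) (by first | linear_combination k3 | linear_combination -k3) hq0,
        zero_of_mul (c := q) (by first | linear_combination k1 | linear_combination -k1) hq0,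
        zero_of_mul (c := q) (by first | linear_combination k2 | linear_combination -k2) hq0⟩
    · right; left
      refine ⟨![![0, 0, q, 0], ![0, -q, 0, 0], ![q, 0, 0, 0], ![0, 0, 0, r]], ?_, ?_⟩
      · intro h
        have := congrFun (congrFun h 0) 2
        simp at this
        exact hq0 this
      · intro X hX
        obtain ⟨⟨k1, k2, k3⟩, ⟨k4, k5, k6⟩, ⟨k7, k8, k9⟩, k10, k11, k12⟩ := key X hX
        have ht := htr X hX
        have m1 : X 2 0 = 0 := zero_of_mul k10 hq0
        have m2 : X 0 2 = 0 := zero_of_mul k11 hq0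
        have m3 : X 1 1 - X 3 3 = 0 := zero_of_mul (c := q) (by linear_combination (k4 + k7) / 2) hq0
        have m4 : X 1 0 - X 2 1 = 0 := zero_of_mul (c := q) (by linear_combination (k5 + k8) / 2) hq0
        have m5 : X 0 1 - X 1 2 = 0 := zero_of_mul (c := q) (by linear_combination (k6 + k9) / 2) hq0
        have m6 : X 0 0 + X 2 2 - X 1 1 - X 3 3 = 0 := zero_of_mul k12 hq0
        have m7 : X 0 0 + X 2 2 = 0 := by linear_combination (ht + m6) / 2
        have m8 : X 1 1 = 0 := by linear_combination (ht - m6) / 4 + m3 / 2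
        have m9 : X 3 3 = 0 := by linear_combination (ht - m6) / 4 - m3 / 2
        intro i j
        fin_cases i <;> fin_cases j <;> simp [Fin.sum_univ_four, m1, m2, m8, m9]
        all_goals first
          | linear_combination (-q) * m4
          | linear_combination q * m5
          | linear_combination q * m7
          | linear_combination k1
          | linear_combination -k1
          | linear_combination k2
          | linear_combination k3
          | linear_combination -k3

end Pool.Agent.Helper30.AF
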