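import Pool.Agent.Helper7.O.Orth1

/-!
The shapes of a principal triple on an irreducible module of dimension four.
-/

open Module LieAlgebra LieModule

namespace Pool.Agent.Helper30.AF

open Pool.Agent.Helper8 Pool.Agent.Helper7

set_option linter.unusedSectionVars false

variable {L : Type*} [LieRing L] [LieAlgebra ℂ L]

/-- the opposite triple -/
def rev (p : Principal L) : Principal L where
  h := -p.h
  e := p.f
  f := p.e
  Z := p.Z
  ef := by rw [← lie_skew, p.ef]
  he := by rw [neg_lie, p.hf, ← neg_smul, neg_neg]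
  hf := by rw [neg_lie, p.he, ← neg_smul]
  hZ := p.Z.neg_mem p.hZ
  ab := p.ab
  dec x := by
    have h1 := p.dec x
    have e1 : {y : L | ∃ n : ℕ, ⁅-p.h, y⁆ = (2 * (n + 1) : ℂ) • y} =
        {y : L | ∃ n : ℕ, ⁅p.h, y⁆ = (-2 * (n + 1) : ℂ) • y} := by
      ext y
      constructor
      · rintro ⟨n, hn⟩
        refine ⟨n, ?_⟩
        rw [neg_lie, neg_eq_iff_eq_neg, ← neg_smul] at hn
        rw [hn]; congr 1; ring
      · rintro ⟨n, hn⟩
        refine ⟨n, ?_⟩
        rw [neg_lie, neg_eq_iff_eq_neg, ← neg_smul]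
        rw [hn]; congr 1; ring
    have e2 : {y : L | ∃ n : ℕ, ⁅-p.h, y⁆ = (-2 * (n + 1) : ℂ) • y} =
        {y : L | ∃ n : ℕ, ⁅p.h, y⁆ = (2 * (n + 1) : ℂ) • y} := by
      ext y
      constructor
      · rintro ⟨n, hn⟩
        refine ⟨n, ?_⟩
        rw [neg_lie, neg_eq_iff_eq_neg, ← neg_smul] at hn
        rw [hn]; congr 1; ring
      · rintro ⟨n, hn⟩
        refine ⟨n, ?_⟩
        rw [neg_lie, neg_eq_iff_eq_neg, ← neg_smul]
        rw [hn]; congr 1; ring
    rw [e1, e2, sup_assoc, sup_comm (Submodule.span ℂ _) (Submodule.span ℂ _), ← sup_assoc]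
    exact h1

variable {V : Type*} [AddCommGroup V] [Module ℂ V] [LieRingModule L V] [LieModule ℂ L V]
  [FiniteDimensional ℂ V]

/-- the eigenvalue of a primitive vector is a natural number -/
lemma prim (p : Principal L) {v : V} {μ : ℂ} (hv0 : v ≠ 0) (hev : ⁅p.e, v⁆ = 0)
    (hhv : ⁅p.h, v⁆ = μ • v) : ∃ n : ℕ, μ = n := by
  by_cases hh0 : p.h = 0
  · refine ⟨0, ?_⟩
    rw [hh0, zero_lie] at hhv
    rw [Nat.cast_zero]
    exact (smul_eq_zero.mp hhv.symm).resolve_right hv0
  · have ht : IsSl2Triple p.h p.e p.f := by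
      refine ⟨hh0, p.ef, ?_, ?_⟩
      · rw [p.he, two_smul, two_smul]
      · rw [p.hf, neg_smul, two_smul, two_smul]
    have hP : ht.HasPrimitiveVectorWith v μ := ⟨hv0, hhv, hev⟩
    exact hP.exists_nat

lemma wt_of {g : L} {m : ℂ} (htop : (⊤ : Submodule ℂ V) ≤
    ⨆ k : ℕ, (toEnd ℂ L V g).eigenspace (m - 2 * k)) {μ : ℂ} {w : V} (hw0 : w ≠ 0)
    (hw : ⁅g, w⁆ = μ • w) : ∃ k : ℕ, μ = m - 2 * k := by
  by_contra hcon
  push Not at hcon
  have h1 := Module.End.eigenspaces_iSupIndep (toEnd ℂ L V g) μ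
  have h2 : (⊤ : Submodule ℂ V) ≤ ⨆ (j : ℂ) (_ : j ≠ μ), (toEnd ℂ L V g).eigenspace j := by
    refine htop.trans (iSup_le fun k => ?_)
    exact le_iSup₂_of_le (m - 2 * k) (fun h => hcon k h.symm) le_rfl
  have h3 := h1.mono_right h2
  have h4 : w ∈ (toEnd ℂ L V g).eigenspace μ := by
    rw [Module.End.mem_eigenspace_iff]; exact hw
  exact hw0 ((Submodule.disjoint_def.mp h3) w h4 trivial)

lemma fp_ne (p : Principal L) {m : ℕ} {x : V} (hx0 : x ≠ 0) (hx : ⁅p.h, x⁆ = (m : ℂ) • x)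
    (he : ⁅p.e, x⁆ = 0) (j : ℕ) (hj : j ≤ m) : fp p x j ≠ 0 := by
  induction j with
  | zero => exact hx0
  | succ n ih =>
    intro h0
    have h1 := e_fp p hx he n
    rw [h0, lie_zero] at h1
    rcases smul_eq_zero.mp h1.symm with h2 | h2
    · rcases mul_eq_zero.mp h2 with h3 | h3
      · exact (Nat.cast_add_one_ne_zero n) h3
      · have h4 : (m : ℂ) = (n : ℂ) := sub_eq_zero.mp h3
        have h5 : m = n := by exact_mod_cast h4
        omega
    · exact ih (by omega) h2

/-- the top vector of an irreducible module -/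
structure Top (p : Principal L) (m : ℕ) (x : V) : Prop where
  ne : x ≠ 0
  e0 : ⁅p.e, x⁆ = 0
  hx : ⁅p.h, x⁆ = (m : ℂ) • x
  uniq : ∀ w : V, ⁅p.h, w⁆ = (m : ℂ) • w → ∃ c : ℂ, w = c • x
  bot : ∀ w : V, ⁅p.h, w⁆ = (-(m : ℂ)) • w → ∃ c : ℂ, w = c • fp p x m
  wt : ∀ S : Submodule ℂ V, (∀ k ≤ m, ∀ w : V, ⁅p.h, w⁆ = ((m : ℂ) - 2 * k) • w → w ∈ S) → S = ⊤

theorem exists_top (p : Principal L) [LieModule.IsIrreducible ℂ L V] :
    ∃ (m : ℕ) (x : V), Top p m x := by
  obtain ⟨m, v, hv0, hev, hhv, huniq, htop⟩ := p.top (V := V)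
  obtain ⟨m', v', hv0', hev', hhv', huniq', htop'⟩ := (rev p).top (V := V)
  have hfm : ⁅p.h, fp p v m⁆ = (-(m : ℂ)) • fp p v m := by
    rw [h_fp p hhv]; congr 1; ring
  have hfm0 := fp_ne p hv0 hhv hev m le_rfl
  have hfm' : ⁅(rev p).h, fp (rev p) v' m'⁆ = (-(m' : ℂ)) • fp (rev p) v' m' := by
    rw [h_fp (rev p) hhv']; congr 1; ring
  have hfm0' := fp_ne (rev p) hv0' hhv' hev' m' le_rfl
  have key : ∀ (μ : ℂ) (w : V), ⁅(rev p).h, w⁆ = μ • w ↔ ⁅p.h, w⁆ = (-μ) • w := by
    intro μ w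
    show ⁅-p.h, w⁆ = μ • w ↔ _
    rw [neg_lie, neg_eq_iff_eq_neg, neg_smul]
  -- the two numbers agree
  have hmm : m' = m := by
    obtain ⟨k, hk⟩ := wt_of htop' hfm0 ((key (m : ℂ) _).mpr hfm)
    obtain ⟨k', hk'⟩ := wt_of htop hfm0' (by
      have := (key _ _).mp hfm'
      rw [neg_neg] at this
      exact this)
    have h1 : m + 2 * k = m' := by
      have : ((m + 2 * k : ℕ) : ℂ) = (m' : ℂ) := by push_cast; linear_combination hk
      exact_mod_cast this
    have h2 : m' + 2 * k' = m := by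
      have : ((m' + 2 * k' : ℕ) : ℂ) = (m : ℂ) := by push_cast; linear_combination hk'
      exact_mod_cast this
    omega
  subst hmm
  refine ⟨m', v, hv0, hev, hhv, huniq, ?_, ?_⟩
  · intro w hw
    obtain ⟨c, hc⟩ := huniq' w ((key _ _).mpr hw)
    obtain ⟨d, hd⟩ := huniq' _ ((key _ _).mpr hfm)
    have hd0 : d ≠ 0 := by
      rintro rfl
      rw [zero_smul] at hd
      exact hfm0 hd
    refine ⟨c / d, ?_⟩
    rw [hd, smul_smul, div_mul_cancel₀ _ hd0, hc]
  · intro S hS
    rw [eq_top_iff]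
    refine htop.trans (iSup_le fun k w hw => ?_)
    rw [Module.End.mem_eigenspace_iff, LieModule.toEnd_apply_apply] at hw
    by_cases hw0 : w = 0
    · rw [hw0]; exact S.zero_mem
    · by_cases hk : k ≤ m'
      · exact hS k hk w hw
      · exfalso
        obtain ⟨l, hl⟩ := wt_of htop' hw0 ((key (-((m' : ℂ) - 2 * k)) w).mpr (by
          rw [neg_neg]; exact hw))
        have h1 : ((k + l : ℕ) : ℂ) = (m' : ℂ) := by push_cast; linear_combination hl / 2
        have h2 : k + l = m' := by exact_mod_cast h1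
        omega

variable {p : Principal L} {m : ℕ} {x : V}

/-- powers beyond the last one vanish -/
lemma Top.last (T : Top p m x) : fp p x (m + 1) = 0 := by
  by_contra hne
  have h1 := h_fp p T.hx (m + 1)
  have h2 := e_fp p T.hx T.e0 m
  rw [sub_self, mul_zero, zero_smul] at h2
  obtain ⟨n, hn⟩ := prim p hne h2 h1
  have h3 : ((n + m + 2 : ℕ) : ℂ) = ((0 : ℕ) : ℂ) := by push_cast at hn ⊢; linear_combination -hn
  have h4 : n + m + 2 = 0 := by exact_mod_cast h3
  omega

lemma Top.li (T : Top p m x) : LinearIndependent ℂ (fun i : Fin (m + 1) => fp p x i) := by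
  refine Module.End.eigenvectors_linearIndependent' (toEnd ℂ L V p.h)
    (fun i : Fin (m + 1) => (m : ℂ) - 2 * (i : ℕ)) ?_ _ ?_
  · intro i j hij
    have h1 : ((i : ℕ) : ℂ) = ((j : ℕ) : ℂ) := by
      have : (m : ℂ) - 2 * (i : ℕ) = (m : ℂ) - 2 * (j : ℕ) := hij
      linear_combination -this / 2
    exact Fin.ext (by exact_mod_cast h1)
  · intro i
    rw [Module.End.hasEigenvector_iff, Module.End.mem_eigenspace_iff]
    exact ⟨h_fp p T.hx i, fp_ne p T.ne T.hx T.e0 i (by omega)⟩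

lemma Top.le (T : Top p m x) : m + 1 ≤ finrank ℂ V := by
  have h1 := T.li.fintype_card_le_finrank
  rwa [Fintype.card_fin] at h1

/-- the two shapes of a basis adapted to a principal triple -/
theorem Top.basis (T : Top p m x) (hd : finrank ℂ V = 4) :
    ∃ b : Basis (Fin 4) ℂ V,
      (⁅p.h, b 0⁆ = (3 : ℂ) • b 0 ∧ ⁅p.h, b 1⁆ = (1 : ℂ) • b 1 ∧ ⁅p.h, b 2⁆ = (-1 : ℂ) • b 2 ∧
        ⁅p.h, b 3⁆ = (-3 : ℂ) • b 3 ∧ ⁅p.f, b 0⁆ = b 1 ∧ ⁅p.f, b 1⁆ = b 2 ∧ ⁅p.f, b 2⁆ = b 3 ∧
        ⁅p.f, b 3⁆ = 0) ∨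
      (⁅p.h, b 0⁆ = (2 : ℂ) • b 0 ∧ ⁅p.h, b 1⁆ = (0 : ℂ) • b 1 ∧ ⁅p.h, b 2⁆ = (-2 : ℂ) • b 2 ∧
        ⁅p.h, b 3⁆ = (0 : ℂ) • b 3 ∧ ⁅p.f, b 0⁆ = b 1 ∧ ⁅p.f, b 1⁆ = b 2 ∧ ⁅p.f, b 2⁆ = 0 ∧
        ⁅p.f, b 3⁆ = 0) := by
  have hle := T.le
  rw [hd] at hle
  have hm : m = 0 ∨ m = 1 ∨ m = 2 ∨ m = 3 := by omega
  rcases hm with rfl | rfl | rfl | rfl
  · exfalso
    have h1 := T.wt (Submodule.span ℂ {x}) (by
      intro k hk w hw
      obtain rfl : k = 0 := by omega
      obtain ⟨c, rfl⟩ := T.uniq w (by rw [hw]; congr 1; push_cast; ring)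
      exact Submodule.smul_mem _ _ (Submodule.mem_span_singleton_self x))
    have h2 : finrank ℂ (Submodule.span ℂ {x}) ≤ 1 := by
      have := finrank_span_le_card (R := ℂ) ({x} : Set V)
      simpa using this
    rw [h1, finrank_top, hd] at h2
    omega
  · exfalso
    have h1 := T.wt (Submodule.span ℂ {x, fp p x 1}) (by
      intro k hk w hw
      have : k = 0 ∨ k = 1 := by omega
      rcases this with rfl | rfl
      · obtain ⟨c, rfl⟩ := T.uniq w (by rw [hw]; congr 1; push_cast; ring)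
        exact Submodule.smul_mem _ _ (Submodule.subset_span (by simp))
      · obtain ⟨c, rfl⟩ := T.bot w (by rw [hw]; congr 1; push_cast; ring)
        exact Submodule.smul_mem _ _ (Submodule.subset_span (by simp)))
    have h2 : finrank ℂ (Submodule.span ℂ {x, fp p x 1}) ≤ 2 := by
      classical
      have := finrank_span_finset_le_card (R := ℂ) ({x, fp p x 1} : Finset V)
      simp only [Finset.coe_insert, Finset.coe_singleton] at this
      exact this.trans Finset.card_le_two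
    rw [h1, finrank_top, hd] at h2
    omega
  · -- the shape [3, 1]
    obtain ⟨w, hw, hwn⟩ : ∃ w : V, ⁅p.h, w⁆ = (0 : ℂ) • w ∧ ∀ c : ℂ, w ≠ c • fp p x 1 := by
      by_contra hcon
      push Not at hcon
      have h1 := T.wt (Submodule.span ℂ {x, fp p x 1, fp p x 2}) (by
        intro k hk w hw
        have : k = 0 ∨ k = 1 ∨ k = 2 := by omega
        rcases this with rfl | rfl | rfl
        · obtain ⟨c, rfl⟩ := T.uniq w (by rw [hw]; congr 1; push_cast; ring)
          exact Submodule.smul_mem _ _ (Submodule.subset_span (by simp))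
        · obtain ⟨c, rfl⟩ := hcon w (by rw [hw]; congr 1; push_cast; ring)
          exact Submodule.smul_mem _ _ (Submodule.subset_span (by simp))
        · obtain ⟨c, rfl⟩ := T.bot w (by rw [hw]; congr 1; push_cast; ring)
          exact Submodule.smul_mem _ _ (Submodule.subset_span (by simp)))
      have h2 : finrank ℂ (Submodule.span ℂ {x, fp p x 1, fp p x 2}) ≤ 3 := by
        classical
        have := finrank_span_finset_le_card (R := ℂ) ({x, fp p x 1, fp p x 2} : Finset V)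
        simp only [Finset.coe_insert, Finset.coe_singleton] at this
        exact this.trans Finset.card_le_three
      rw [h1, finrank_top, hd] at h2
      omega
    have ex1 : ⁅p.e, fp p x 1⁆ = (2 : ℂ) • x := by
      have := e_fp p T.hx T.e0 0
      rw [fp_zero] at this
      rw [this]; congr 1; push_cast; ring
    have ex2 : ⁅p.e, fp p x 2⁆ = (2 : ℂ) • fp p x 1 := by
      have := e_fp p T.hx T.e0 1
      rw [this]; congr 1; push_cast; ring
    obtain ⟨c, hc⟩ := T.uniq ⁅p.e, w⁆ (by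
      rw [shift p.he hw]; congr 1; push_cast; ring)
    set z := w - (c / 2) • fp p x 1 with hz
    have hx1 : ⁅p.h, fp p x 1⁆ = (0 : ℂ) • fp p x 1 := by
      rw [h_fp p T.hx]; congr 1; push_cast; ring
    have hez : ⁅p.e, z⁆ = 0 := by
      rw [hz, lie_sub, lie_smul, hc, ex1, smul_smul, div_mul_cancel₀ _ two_ne_zero, sub_self]
    have hhz : ⁅p.h, z⁆ = (0 : ℂ) • z := by
      rw [hz, lie_sub, lie_smul, hw, hx1, zero_smul, zero_smul, zero_smul, smul_zero, sub_zero]
    have hfz : ⁅p.f, z⁆ = 0 := by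
      by_contra hne
      have h1 : ⁅p.e, ⁅p.f, z⁆⁆ = 0 := by
        rw [leibniz_lie, p.ef, hez, hhz, lie_zero, zero_smul, add_zero]
      obtain ⟨n, hn⟩ := prim p hne h1 (shift p.hf hhz)
      have h3 : ((n + 2 : ℕ) : ℂ) = ((0 : ℕ) : ℂ) := by push_cast; linear_combination -hn
      have h4 : n + 2 = 0 := by exact_mod_cast h3
      omega
    have hli : LinearIndependent ℂ ![x, fp p x 1, fp p x 2, z] := by
      have li3 := Fintype.linearIndependent_iff.mp T.li
      have li2 : ∀ a b : ℂ, a • x + b • fp p x 1 = 0 → a = 0 ∧ b = 0 := by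
        intro a b hab
        have h := li3 ![a, b, 0] (by
          erw [Fin.sum_univ_three]
          show a • fp p x 0 + b • fp p x 1 + (0 : ℂ) • fp p x 2 = 0
          rw [zero_smul, add_zero, fp_zero]
          exact hab)
        exact ⟨h 0, h 1⟩
      rw [Fintype.linearIndependent_iff]
      intro g hg
      simp only [Fin.sum_univ_four, Matrix.cons_val_zero, Matrix.cons_val_one,
        Matrix.cons_val] at hg
      have h1 := congrArg (fun t => ⁅p.e, t⁆) hg
      simp only [lie_add, lie_smul, T.e0, ex1, ex2, hez, smul_zero, lie_zero, zero_add,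
        add_zero, smul_smul] at h1
      obtain ⟨g1', g2'⟩ := li2 _ _ h1
      have g1 : g 1 = 0 := by linear_combination g1' / 2
      have g2 : g 2 = 0 := by linear_combination g2' / 2
      rw [g1, g2, zero_smul, zero_smul, add_zero, add_zero] at hg
      have h3 := congrArg (fun t => ⁅p.h, t⁆) hg
      simp only [lie_add, lie_smul, T.hx, hhz, zero_smul, smul_zero, lie_zero, add_zero,
        smul_smul] at h3
      have g0 : g 0 = 0 := by
        rcases smul_eq_zero.mp h3 with h4 | h4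
        · rcases mul_eq_zero.mp h4 with h5 | h5
          · exact h5
          · norm_num at h5
        · exact absurd h4 T.ne
      rw [g0, zero_smul, zero_add] at hg
      have g3 : g 3 = 0 := by
        rcases smul_eq_zero.mp hg with h4 | h4
        · exact h4
        · exact absurd (sub_eq_zero.mp h4) (hwn _)
      intro i
      fin_cases i
      · exact g0
      · exact g1
      · exact g2
      · exact g3
    refine ⟨basisOfLinearIndependentOfCardEqFinrank hli (by rw [hd]; rfl), Or.inr ?_⟩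
    simp only [coe_basisOfLinearIndependentOfCardEqFinrank, Matrix.cons_val_zero,
      Matrix.cons_val_one, Matrix.cons_val]
    refine ⟨by rw [T.hx]; norm_num, hx1, ?_, hhz, rfl, rfl, T.last, hfz⟩
    rw [h_fp p T.hx]; congr 1; push_cast; ring
  · -- the shape [4]
    let b : Basis (Fin 4) ℂ V :=
      basisOfLinearIndependentOfCardEqFinrank T.li (by rw [hd]; rfl)
    have hb : ∀ i : Fin 4, b i = fp p x i := fun i =>
      congrFun (coe_basisOfLinearIndependentOfCardEqFinrank T.li (by rw [hd]; rfl)) i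
    have b0 : b 0 = x := hb 0
    have b1 : b 1 = fp p x 1 := hb 1
    have b2 : b 2 = fp p x 2 := hb 2
    have b3 : b 3 = fp p x 3 := hb 3
    refine ⟨b, Or.inl ?_⟩
    rw [b0, b1, b2, b3]
    have hh : ∀ i : ℕ, ⁅p.h, fp p x i⁆ = (3 - 2 * i : ℂ) • fp p x i := fun i => by
      have := h_fp p T.hx i
      rw [this]; norm_num
    refine ⟨?_, ?_, ?_, ?_, rfl, rfl, rfl, T.last⟩
    · have := hh 0
      rw [show (3 : ℂ) - 2 * (0 : ℕ) = 3 by norm_num] at this
      exact this
    · have := hh 1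
      rw [show (3 : ℂ) - 2 * (1 : ℕ) = 1 by norm_num] at this
      exact this
    · have := hh 2
      rw [show (3 : ℂ) - 2 * (2 : ℕ) = -1 by norm_num] at this
      exact this
    · have := hh 3
      rw [show (3 : ℂ) - 2 * (3 : ℕ) = -3 by norm_num] at this
      exact this

end Pool.Agent.Helper30.AF
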