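import Pool.Agent.Helper8.Lie.Semisimple
import Pool.Agent.Helper30.AF.Alt22B
import Pool.Agent.Helper30.AF.Alt22C

/-!
Invariants of `⋀² V ⊗ ⋀² V'` for an irreducible module `V` of dimension four which is not
self-dual.
-/

open Module LieAlgebra LieModule

namespace Pool.Agent.Helper30.AF

open Pool.Agent.Helper8

set_option linter.unusedSectionVars false

section

variable {L : Type*} [LieRing L] [LieAlgebra ℂ L] {V V' : Type*} [AddCommGroup V] [Module ℂ V]
  [LieRingModule L V] [LieModule ℂ L V] [AddCommGroup V'] [Module ℂ V'] [LieRingModule L V']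
  [LieModule ℂ L V']

/-- two dual bases -/
structure DB (β : V →ₗ[ℂ] V' →ₗ[ℂ] ℂ) (b : Basis (Fin 4) ℂ V) (b' : Basis (Fin 4) ℂ V') : Prop where
  eq : ∀ i j, β (b i) (b' j) = if i = j then 1 else 0

lemma exists_db [FiniteDimensional ℂ V'] (β : V →ₗ[ℂ] V' →ₗ[ℂ] ℂ)
    (hβ1 : ∀ u, (∀ v, β u v = 0) → u = 0) (hβ2 : ∀ v, (∀ u, β u v = 0) → v = 0)
    (b : Basis (Fin 4) ℂ V) : ∃ b' : Basis (Fin 4) ℂ V', DB β b b' := by
  have : FiniteDimensional ℂ V := b.finiteDimensional_of_finite
  have i1 : Function.Injective β := by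
    rw [injective_iff_map_eq_zero]
    intro u hu
    exact hβ1 u (fun v => by rw [hu, LinearMap.zero_apply])
  have i2 : Function.Injective β.flip := by
    rw [injective_iff_map_eq_zero]
    intro u hu
    exact hβ2 u (fun v => by
      have := LinearMap.congr_fun hu v
      rwa [LinearMap.flip_apply, LinearMap.zero_apply] at this)
  have r1 := LinearMap.finrank_le_finrank_of_injective i1
  have r2 := LinearMap.finrank_le_finrank_of_injective i2
  have r3 : finrank ℂ (V' →ₗ[ℂ] ℂ) = finrank ℂ V' := Subspace.dual_finrank_eq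
  have r4 : finrank ℂ (V →ₗ[ℂ] ℂ) = finrank ℂ V := Subspace.dual_finrank_eq
  rw [r3] at r1
  rw [r4] at r2
  let e : V' ≃ₗ[ℂ] (V →ₗ[ℂ] ℂ) :=
    LinearEquiv.ofInjectiveOfFinrankEq β.flip i2 (by rw [r4]; exact le_antisymm r2 r1)
  refine ⟨b.dualBasis.map e.symm, ⟨fun i j => ?_⟩⟩
  have h1 : ∀ f : V →ₗ[ℂ] ℂ, β.flip (e.symm f) = f := fun f => e.apply_symm_apply f
  rw [← LinearMap.flip_apply, Basis.map_apply, h1, Basis.dualBasis_apply_self]

variable {β : V →ₗ[ℂ] V' →ₗ[ℂ] ℂ} {b : Basis (Fin 4) ℂ V} {b' : Basis (Fin 4) ℂ V'}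

lemma DB.repr (D : DB β b b') (v : V) (a : Fin 4) : b.repr v a = β v (b' a) := by
  conv_rhs => rw [← b.sum_repr v]
  rw [map_sum, LinearMap.sum_apply, Finset.sum_eq_single a]
  · rw [map_smul, LinearMap.smul_apply, D.eq, if_pos rfl, smul_eq_mul, mul_one]
  · intro i _ hi
    rw [map_smul, LinearMap.smul_apply, D.eq, if_neg hi, smul_zero]
  · intro h; exact absurd (Finset.mem_univ _) h

lemma DB.repr' (D : DB β b b') (v : V') (a : Fin 4) : b'.repr v a = β (b a) v := by
  conv_rhs => rw [← b'.sum_repr v]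
  rw [map_sum, Finset.sum_eq_single a]
  · rw [map_smul, D.eq, if_pos rfl, smul_eq_mul, mul_one]
  · intro i _ hi
    rw [map_smul, D.eq, if_neg (Ne.symm hi), smul_zero]
  · intro h; exact absurd (Finset.mem_univ _) h

lemma DB.exp (D : DB β b b') (v : V) : v = ∑ a, β v (b' a) • b a := by
  conv_lhs => rw [← b.sum_repr v]
  exact Finset.sum_congr rfl fun a _ => by rw [D.repr]

lemma DB.exp' (D : DB β b b') (v : V') : v = ∑ a, β (b a) v • b' a := by
  conv_lhs => rw [← b'.sum_repr v]
  exact Finset.sum_congr rfl fun a _ => by rw [D.repr']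

/-- the matrix of an element of the Lie algebra -/
noncomputable def mx (β : V →ₗ[ℂ] V' →ₗ[ℂ] ℂ) (b : Basis (Fin 4) ℂ V) (b' : Basis (Fin 4) ℂ V') (g : L)
    (a i : Fin 4) : ℂ := β ⁅g, b i⁆ (b' a)

lemma DB.lie (D : DB β b b') (g : L) (i : Fin 4) : ⁅g, b i⁆ = ∑ a, mx β b b' g a i • b a :=
  D.exp _

lemma DB.lie' (D : DB β b b') (hβ : ∀ (x : L) u v, β ⁅x, u⁆ v + β u ⁅x, v⁆ = 0) (g : L)
    (k : Fin 4) : ⁅g, b' k⁆ = - ∑ a, mx β b b' g k a • b' a := by
  conv_lhs => rw [D.exp' ⁅g, b' k⁆]
  rw [← Finset.sum_neg_distrib]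
  refine Finset.sum_congr rfl fun a _ => ?_
  rw [← neg_smul]
  congr 1
  have := hβ g (b a) (b' k)
  rw [mx]
  linear_combination this

lemma trace_zero [FiniteDimensional ℂ L] [LieAlgebra.IsKilling ℂ L] (D : DB β b b') (g : L) :
    mx β b b' g 0 0 + mx β b b' g 1 1 + mx β b b' g 2 2 + mx β b b' g 3 3 = 0 := by
  have h1 : LinearMap.trace ℂ V (toEnd ℂ L V g) = 0 := by
    have h2 := perfect_of_killing g
    induction h2 using Submodule.span_induction with
    | mem z hz =>
      obtain ⟨x, y, rfl⟩ := hz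
      have h3 : toEnd ℂ L V ⁅x, y⁆ = toEnd ℂ L V x * toEnd ℂ L V y -
          toEnd ℂ L V y * toEnd ℂ L V x := by
        apply LinearMap.ext
        intro v
        rw [LinearMap.sub_apply, Module.End.mul_apply, Module.End.mul_apply]
        simp only [LieModule.toEnd_apply_apply]
        rw [lie_lie]
      rw [h3, map_sub, LinearMap.trace_mul_comm, sub_self]
    | zero => rw [map_zero, map_zero]
    | add x y _ _ hx hy => rw [map_add, map_add, hx, hy, add_zero]
    | smul c x _ hx => rw [map_smul, map_smul, hx, smul_zero]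
  rw [LinearMap.trace_eq_matrix_trace ℂ b, Matrix.trace, Fin.sum_univ_four] at h1
  simp only [Matrix.diag_apply, LinearMap.toMatrix_apply, LieModule.toEnd_apply_apply,
    D.repr] at h1
  exact h1

end

end Pool.Agent.Helper30.AF

namespace Pool.Agent.Helper7

open Pool.Agent.Helper8 Pool.Agent.Helper30.AF

/-- M10a: for an irreducible module of dimension four which is not self-dual the invariants of
`(⋀² V ⊗ ⋀² V')^*` are the multiples of the square of the pairing. -/
theorem alt22_four {L : Type*} [LieRing L] [LieAlgebra ℂ L] [FiniteDimensional ℂ L]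
    [LieAlgebra.IsKilling ℂ L] {V V' : Type*} [AddCommGroup V] [Module ℂ V] [LieRingModule L V]
    [LieModule ℂ L V] [FiniteDimensional ℂ V] [LieModule.IsIrreducible ℂ L V]
    [AddCommGroup V'] [Module ℂ V'] [LieRingModule L V'] [LieModule ℂ L V']
    [FiniteDimensional ℂ V'] (hd : Module.finrank ℂ V = 4) (β : V →ₗ[ℂ] V' →ₗ[ℂ] ℂ)
    (hβ : ∀ (x : L) u v, β ⁅x, u⁆ v + β u ⁅x, v⁆ = 0) (hβ1 : ∀ u, (∀ v, β u v = 0) → u = 0)
    (hβ2 : ∀ v, (∀ u, β u v = 0) → v = 0)
    (hns : ∀ γ : V →ₗ[ℂ] V →ₗ[ℂ] ℂ, (∀ (x : L) u v, γ ⁅x, u⁆ v + γ u ⁅x, v⁆ = 0) → γ = 0)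
    (Φ : V →ₗ[ℂ] V →ₗ[ℂ] V' →ₗ[ℂ] V' →ₗ[ℂ] ℂ) (h1 : ∀ u v u' v', Φ u v u' v' = - Φ v u u' v')
    (h2 : ∀ u v u' v', Φ u v u' v' = - Φ u v v' u')
    (hinv : ∀ (x : L) u v u' v', Φ ⁅x, u⁆ v u' v' + Φ u ⁅x, v⁆ u' v' + Φ u v ⁅x, u'⁆ v' +
      Φ u v u' ⁅x, v'⁆ = 0) :
    ∃ c : ℂ, ∀ u v u' v', Φ u v u' v' = c * (β u u' * β v v' - β u v' * β v u') := by
  obtain ⟨p⟩ := exists_principal L
  obtain ⟨m, x, T⟩ := exists_top (V := V) p
  obtain ⟨b, hb⟩ := T.basis hd
  obtain ⟨b', D⟩ := exists_db β hβ1 hβ2 b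
  set R : Fin 4 → Fin 4 → Fin 4 → Fin 4 → ℂ := fun i j k l => Φ (b i) (b j) (b' k) (b' l) with hR
  have hA : Alt R := ⟨fun i j k l => h1 _ _ _ _, fun i j k l => h2 _ _ _ _⟩
  set S : Set (Fin 4 → Fin 4 → ℂ) := Set.range (fun g : L => mx β b b' g) with hS
  have hE : ∀ X ∈ S, EqX R X := by
    rintro X ⟨g, rfl⟩ i j k l
    have h := hinv g (b i) (b j) (b' k) (b' l)
    rw [D.lie g i, D.lie g j, D.lie' hβ g k, D.lie' hβ g l] at h
    simp only [map_sum, map_smul, map_neg, LinearMap.sum_apply, LinearMap.smul_apply,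
      LinearMap.neg_apply, smul_eq_mul] at h
    simp only [hR]
    linear_combination h
  have htr : ∀ X ∈ S, X 0 0 + X 1 1 + X 2 2 + X 3 3 = 0 := by
    rintro X ⟨g, rfl⟩
    exact trace_zero D g
  -- the matrix of a diagonal element
  have hdg : ∀ (g : L) (w : Fin 4 → ℂ), (∀ i, ⁅g, b i⁆ = w i • b i) → dg w ∈ S := by
    intro g w hw
    refine ⟨g, ?_⟩
    funext a i
    show β ⁅g, b i⁆ (b' a) = if a = i then w i else 0
    rw [hw, map_smul, LinearMap.smul_apply, D.eq, smul_eq_mul]
    by_cases h : i = a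
    · rw [if_pos h, if_pos h.symm, mul_one]
    · rw [if_neg h, if_neg (Ne.symm h), mul_zero]
  -- the scalar case
  have hscal : Scal R → ∃ c : ℂ, ∀ u v u' v', Φ u v u' v' =
      c * (β u u' * β v v' - β u v' * β v u') := by
    rintro ⟨c, hc⟩
    refine ⟨c, ?_⟩
    have s1 : ∀ i j k v', Φ (b i) (b j) (b' k) v' =
        c * (β (b i) (b' k) * β (b j) v' - β (b i) v' * β (b j) (b' k)) := by
      intro i j k v'
      have h : Φ (b i) (b j) (b' k) - c • (β (b i) (b' k) • β (b j) -
          β (b j) (b' k) • β (b i)) = 0 := by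
        apply b'.ext
        intro l
        have h3 := hc i j k l
        simp only [hR] at h3
        simp only [LinearMap.sub_apply, LinearMap.smul_apply, smul_eq_mul, LinearMap.zero_apply,
          D.eq, h3]
        ring
      have h3 := LinearMap.congr_fun h v'
      simp only [LinearMap.sub_apply, LinearMap.smul_apply, smul_eq_mul,
        LinearMap.zero_apply] at h3
      linear_combination h3
    have s2 : ∀ i j u' v', Φ (b i) (b j) u' v' =
        c * (β (b i) u' * β (b j) v' - β (b i) v' * β (b j) u') := by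
      intro i j u' v'
      have h : (Φ (b i) (b j)).flip v' - c • (β (b j) v' • β (b i) -
          β (b i) v' • β (b j)) = 0 := by
        apply b'.ext
        intro k
        simp only [LinearMap.sub_apply, LinearMap.smul_apply, smul_eq_mul, LinearMap.zero_apply,
          LinearMap.flip_apply, s1]
        ring
      have h3 := LinearMap.congr_fun h u'
      simp only [LinearMap.sub_apply, LinearMap.smul_apply, smul_eq_mul, LinearMap.flip_apply,
        LinearMap.zero_apply] at h3
      linear_combination h3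
    have s3 : ∀ i v u' v', Φ (b i) v u' v' =
        c * (β (b i) u' * β v v' - β (b i) v' * β v u') := by
      intro i v u' v'
      have h : ((Φ (b i)).flip u').flip v' - c • (β (b i) u' • β.flip v' -
          β (b i) v' • β.flip u') = 0 := by
        apply b.ext
        intro k
        simp only [LinearMap.sub_apply, LinearMap.smul_apply, smul_eq_mul, LinearMap.zero_apply,
          LinearMap.flip_apply, s2]
        ring
      have h3 := LinearMap.congr_fun h v
      simp only [LinearMap.sub_apply, LinearMap.smul_apply, smul_eq_mul, LinearMap.flip_apply,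
        LinearMap.zero_apply] at h3
      linear_combination h3
    intro u v u' v'
    have h : ((Φ.flip v).flip u').flip v' - c • (β v v' • β.flip u' -
        β v u' • β.flip v') = 0 := by
      apply b.ext
      intro k
      simp only [LinearMap.sub_apply, LinearMap.smul_apply, smul_eq_mul, LinearMap.zero_apply,
        LinearMap.flip_apply, s3]
      ring
    have h3 := LinearMap.congr_fun h u
    simp only [LinearMap.sub_apply, LinearMap.smul_apply, smul_eq_mul, LinearMap.flip_apply,
      LinearMap.zero_apply] at h3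
    linear_combination h3
  -- invariant forms
  have hform : (∃ G : Fin 4 → Fin 4 → ℂ, G ≠ 0 ∧ ∀ X ∈ S, Skew G X) → False := by
    rintro ⟨G, hG0, hG⟩
    apply hG0
    set γ : V →ₗ[ℂ] V →ₗ[ℂ] ℂ := Matrix.toLinearMap₂ b b (Matrix.of G) with hγ
    have hγb : ∀ i j, γ (b i) (b j) = G i j := by
      intro i j
      rw [hγ, Matrix.toLinearMap₂_apply_basis, Matrix.of_apply]
    have hz : γ = 0 := by
      apply hns
      intro g u v
      have h : γ.comp (toEnd ℂ L V g) + γ.compl₂ (toEnd ℂ L V g) = 0 := by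
        apply b.ext
        intro i
        apply b.ext
        intro j
        have h3 := hG _ ⟨g, rfl⟩ i j
        simp only [LinearMap.add_apply, LinearMap.comp_apply, LinearMap.compl₂_apply,
          LieModule.toEnd_apply_apply, LinearMap.zero_apply]
        rw [D.lie g i, D.lie g j]
        simp only [map_sum, map_smul, LinearMap.sum_apply, LinearMap.smul_apply, smul_eq_mul,
          hγb]
        exact h3
      have h3 := LinearMap.congr_fun (LinearMap.congr_fun h u) v
      simpa only [LinearMap.add_apply, LinearMap.comp_apply, LinearMap.compl₂_apply,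
          LieModule.toEnd_apply_apply, LinearMap.zero_apply] using h3
    funext i j
    rw [← hγb, hz]
    rfl
  rcases hb with ⟨k0, k1, k2, k3, f0, f1, f2, f3⟩ | ⟨k0, k1, k2, k3, f0, f1, f2, f3⟩
  · have hF : fA ∈ S := by
      refine ⟨p.f, ?_⟩
      funext a i
      show β ⁅p.f, b i⁆ (b' a) = _
      fin_cases i <;> fin_cases a <;> simp [f0, f1, f2, f3, D.eq, fA]
    rcases algA hA S hE htr (w := ![3, 1, -1, -3]) rfl rfl rfl rfl (hdg p.h _ (by
      intro i
      fin_cases i
      · exact k0
      · exact k1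
      · exact k2
      · exact k3)) hF with h | h
    · exact hscal h
    · exact (hform h).elim
  · have hF : fB ∈ S := by
      refine ⟨p.f, ?_⟩
      funext a i
      show β ⁅p.f, b i⁆ (b' a) = _
      fin_cases i <;> fin_cases a <;> simp [f0, f1, f2, f3, D.eq, fB]
    rcases algB hA S hE htr (w := ![2, 0, -2, 0]) rfl rfl rfl rfl (hdg p.h _ (by
      intro i
      fin_cases i
      · exact k0
      · exact k1
      · exact k2
      · exact k3)) hF with h | h | h | h
    · exact hscal h
    · exact (hform h).elim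
    · exfalso
      rcases irr_cases (L := L) (LinearMap.ker (β.flip (b' 3))) (by
        intro g v hv
        rw [LinearMap.mem_ker, LinearMap.flip_apply] at hv ⊢
        obtain ⟨a0, a1, a2⟩ := h _ ⟨g, rfl⟩
        simp only [mx] at a0 a1 a2
        rw [D.exp v, Fin.sum_univ_four]
        simp only [lie_add, lie_smul, map_add, map_smul, LinearMap.add_apply,
          LinearMap.smul_apply, smul_eq_mul, a0, a1, a2, hv]
        ring) with h3 | h3
      · have h4 : b 0 ∈ LinearMap.ker (β.flip (b' 3)) := by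
          rw [LinearMap.mem_ker, LinearMap.flip_apply, D.eq]
          rfl
        rw [h3, Submodule.mem_bot] at h4
        exact b.ne_zero 0 h4
      · have h4 : b 3 ∈ LinearMap.ker (β.flip (b' 3)) := by rw [h3]; trivial
        rw [LinearMap.mem_ker, LinearMap.flip_apply, D.eq, if_pos rfl] at h4
        exact one_ne_zero h4
    · exfalso
      rcases irr_cases (L := L) (Submodule.span ℂ {b 3}) (by
        intro g v hv
        obtain ⟨c, rfl⟩ := Submodule.mem_span_singleton.mp hv
        obtain ⟨a0, a1, a2⟩ := h _ ⟨g, rfl⟩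
        beta_reduce at a0 a1 a2
        rw [lie_smul, D.lie g 3, Fin.sum_univ_four, a0, a1, a2]
        simp only [zero_smul, zero_add]
        exact Submodule.smul_mem _ _ (Submodule.smul_mem _ _
          (Submodule.mem_span_singleton_self _))) with h3 | h3
      · rw [Submodule.span_singleton_eq_bot] at h3
        exact b.ne_zero 3 h3
      · have h2 : finrank ℂ (Submodule.span ℂ {b 3}) ≤ 1 := by
          have := finrank_span_le_card (R := ℂ) ({b 3} : Set V)
          simpa using this
        rw [h3, finrank_top, hd] at h2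
        omega

end Pool.Agent.Helper7
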