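import Mathlib

/-!
Invariant tensors on `⋀² ⊗ ⋀²` of a four-dimensional space: the computations in coordinates.
-/

namespace Pool.Agent.Helper30.AF

/-- the equation of invariance of the tensor `R` under the matrix `X` -/
def EqX (R : Fin 4 → Fin 4 → Fin 4 → Fin 4 → ℂ) (X : Fin 4 → Fin 4 → ℂ) : Prop :=
  ∀ i j k l, ∑ a, X a i * R a j k l + ∑ a, X a j * R i a k l - ∑ a, X k a * R i j a l -
    ∑ a, X l a * R i j k a = 0

/-- the tensor is alternating in both pairs of variables -/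
structure Alt (R : Fin 4 → Fin 4 → Fin 4 → Fin 4 → ℂ) : Prop where
  a : ∀ i j k l, R i j k l = - R j i k l
  b : ∀ i j k l, R i j k l = - R i j l k

variable {R : Fin 4 → Fin 4 → Fin 4 → Fin 4 → ℂ} (hR : Alt R)

include hR

lemma Alt.d1 (i k l : Fin 4) : R i i k l = 0 := by
  have := hR.a i i k l
  linear_combination this / 2

lemma Alt.d2 (i j k : Fin 4) : R i j k k = 0 := by
  have := hR.b i j k k
  linear_combination this / 2

/-- the table of the values of the tensor -/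
lemma Alt.red1 : (∀ k l, R 1 0 k l = - R 0 1 k l) ∧ (∀ k l, R 2 0 k l = - R 0 2 k l) ∧
    (∀ k l, R 3 0 k l = - R 0 3 k l) ∧ (∀ k l, R 2 1 k l = - R 1 2 k l) ∧
    (∀ k l, R 3 1 k l = - R 1 3 k l) ∧ (∀ k l, R 3 2 k l = - R 2 3 k l) :=
  ⟨hR.a 1 0, hR.a 2 0, hR.a 3 0, hR.a 2 1, hR.a 3 1, hR.a 3 2⟩

lemma Alt.red2 : (∀ i j, R i j 1 0 = - R i j 0 1) ∧ (∀ i j, R i j 2 0 = - R i j 0 2) ∧
    (∀ i j, R i j 3 0 = - R i j 0 3) ∧ (∀ i j, R i j 2 1 = - R i j 1 2) ∧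
    (∀ i j, R i j 3 1 = - R i j 1 3) ∧ (∀ i j, R i j 3 2 = - R i j 2 3) :=
  ⟨fun i j => hR.b i j 1 0, fun i j => hR.b i j 2 0, fun i j => hR.b i j 3 0,
    fun i j => hR.b i j 2 1, fun i j => hR.b i j 3 1, fun i j => hR.b i j 3 2⟩

/-- the values are multiples of the pairing -/
lemma Alt.scalar {a : ℂ}
    (h0101 : R 0 1 0 1 = a) (h0102 : R 0 1 0 2 = 0) (h0103 : R 0 1 0 3 = 0)
    (h0112 : R 0 1 1 2 = 0) (h0113 : R 0 1 1 3 = 0) (h0123 : R 0 1 2 3 = 0)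
    (h0201 : R 0 2 0 1 = 0) (h0202 : R 0 2 0 2 = a) (h0203 : R 0 2 0 3 = 0)
    (h0212 : R 0 2 1 2 = 0) (h0213 : R 0 2 1 3 = 0) (h0223 : R 0 2 2 3 = 0)
    (h0301 : R 0 3 0 1 = 0) (h0302 : R 0 3 0 2 = 0) (h0303 : R 0 3 0 3 = a)
    (h0312 : R 0 3 1 2 = 0) (h0313 : R 0 3 1 3 = 0) (h0323 : R 0 3 2 3 = 0)
    (h1201 : R 1 2 0 1 = 0) (h1202 : R 1 2 0 2 = 0) (h1203 : R 1 2 0 3 = 0)
    (h1212 : R 1 2 1 2 = a) (h1213 : R 1 2 1 3 = 0) (h1223 : R 1 2 2 3 = 0)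
    (h1301 : R 1 3 0 1 = 0) (h1302 : R 1 3 0 2 = 0) (h1303 : R 1 3 0 3 = 0)
    (h1312 : R 1 3 1 2 = 0) (h1313 : R 1 3 1 3 = a) (h1323 : R 1 3 2 3 = 0)
    (h2301 : R 2 3 0 1 = 0) (h2302 : R 2 3 0 2 = 0) (h2303 : R 2 3 0 3 = 0)
    (h2312 : R 2 3 1 2 = 0) (h2313 : R 2 3 1 3 = 0) (h2323 : R 2 3 2 3 = a)
    (i j k l : Fin 4) : R i j k l =
      a * ((if i = k then 1 else 0) * (if j = l then 1 else 0) -
        (if i = l then 1 else 0) * (if j = k then 1 else 0)) := by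
  obtain ⟨p1, p2, p3, p4, p5, p6⟩ := hR.red1
  obtain ⟨q1, q2, q3, q4, q5, q6⟩ := hR.red2
  have d1 := hR.d1
  have d2 := hR.d2
  fin_cases i <;> fin_cases j <;> fin_cases k <;> fin_cases l <;>
    simp [p1, p2, p3, p4, p5, p6, q1, q2, q3, q4, q5, q6, d1, d2, h0101, h0102, h0103, h0112,
      h0113, h0123, h0201, h0202, h0203, h0212, h0213, h0223, h0301, h0302, h0303, h0312,
      h0313, h0323, h1201, h1202, h1203, h1212, h1213, h1223, h1301, h1302, h1303, h1312,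
      h1313, h1323, h2301, h2302, h2303, h2312, h2313, h2323]

end Pool.Agent.Helper30.AF
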