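import Pool.Agent.Helper30.AF.Alt22
import Pool.Agent.Helper7.O.Orth5
import Pool.Agent.Helper7.WeylLite

/-!
An irreducible representation of dimension four which is not self-dual has image `sl_4`.
-/

open Module LieAlgebra LieModule

namespace Pool.Agent.Helper30.AF

open Pool.Agent.Helper8 Pool.Agent.Helper7

set_option linter.unusedSectionVars false

/-! ### skew matrices as a Lie module -/

/-- the space of skew matrices -/
def Sk : Submodule ℂ (Matrix (Fin 4) (Fin 4) ℂ) where
  carrier := {B | B.transpose = -B}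
  zero_mem' := by simp
  add_mem' {A B} hA hB := by
    show (A + B).transpose = -(A + B)
    have hA' : A.transpose = -A := hA
    have hB' : B.transpose = -B := hB
    rw [Matrix.transpose_add, hA', hB']; abel
  smul_mem' c A hA := by
    show (c • A).transpose = -(c • A)
    have hA' : A.transpose = -A := hA
    rw [Matrix.transpose_smul, hA', smul_neg]

lemma mem_Sk {B : Matrix (Fin 4) (Fin 4) ℂ} : B ∈ Sk ↔ B.transpose = -B := Iff.rfl

lemma Sk_apply {B : Matrix (Fin 4) (Fin 4) ℂ} (hB : B ∈ Sk) (i j : Fin 4) : B i j = - B j i := by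
  have h := congrFun (congrFun (mem_Sk.mp hB) j) i
  rw [Matrix.transpose_apply, Matrix.neg_apply] at h
  exact h

/-- the action of a matrix on skew matrices -/
def act (X : Matrix (Fin 4) (Fin 4) ℂ) : Sk →ₗ[ℂ] Sk where
  toFun B := ⟨X * B.1 + B.1 * X.transpose, by
    rw [mem_Sk, Matrix.transpose_add, Matrix.transpose_mul, Matrix.transpose_mul,
      Matrix.transpose_transpose, mem_Sk.mp B.2]
    rw [Matrix.neg_mul, Matrix.mul_neg]; abel⟩
  map_add' A B := by
    apply Subtype.ext
    simp only [Submodule.coe_add, Matrix.mul_add, Matrix.add_mul]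
    abel
  map_smul' c A := by
    apply Subtype.ext
    simp only [Submodule.coe_smul, Matrix.mul_smul, Matrix.smul_mul, RingHom.id_apply, smul_add]

lemma act_coe (X : Matrix (Fin 4) (Fin 4) ℂ) (B : Sk) :
    (act X B : Matrix (Fin 4) (Fin 4) ℂ) = X * B.1 + B.1 * X.transpose := rfl

lemma act_add (X Y : Matrix (Fin 4) (Fin 4) ℂ) (B : Sk) : act (X + Y) B = act X B + act Y B := by
  apply Subtype.ext
  simp only [Submodule.coe_add, act_coe, Matrix.transpose_add, Matrix.mul_add, Matrix.add_mul]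
  abel

lemma act_smul (c : ℂ) (X : Matrix (Fin 4) (Fin 4) ℂ) (B : Sk) :
    act (c • X) B = c • act X B := by
  apply Subtype.ext
  simp only [Submodule.coe_smul, act_coe, Matrix.transpose_smul, Matrix.mul_smul,
    Matrix.smul_mul, smul_add]

lemma act_lie (X Y : Matrix (Fin 4) (Fin 4) ℂ) (B : Sk) :
    act (X * Y - Y * X) B = act X (act Y B) - act Y (act X B) := by
  apply Subtype.ext
  simp only [AddSubgroupClass.coe_sub, act_coe, Matrix.transpose_sub, Matrix.transpose_mul]
  noncomm_ring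

/-- a representation on matrices -/
structure MRep (L : Type*) [LieRing L] [LieAlgebra ℂ L] where
  ρ : L →ₗ[ℂ] Matrix (Fin 4) (Fin 4) ℂ
  lie : ∀ x y, ρ ⁅x, y⁆ = ρ x * ρ y - ρ y * ρ x

variable {L : Type*} [LieRing L] [LieAlgebra ℂ L]

/-- the Lie module of skew matrices -/
@[reducible] def skLRM (r : MRep L) : LieRingModule L Sk where
  bracket x B := act (r.ρ x) B
  add_lie x y B := by
    show act (r.ρ (x + y)) B = _
    rw [map_add, act_add]
  lie_add x A B := (act (r.ρ x)).map_add A B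
  leibniz_lie x y B := by
    show act (r.ρ x) (act (r.ρ y) B) = act (r.ρ ⁅x, y⁆) B + act (r.ρ y) (act (r.ρ x) B)
    rw [r.lie, act_lie]
    abel

lemma skLM (r : MRep L) : @LieModule ℂ L Sk _ _ _ _ _ (skLRM r) :=
  letI := skLRM r
  { smul_lie := fun c x B => by
      show act (r.ρ (c • x)) B = c • act (r.ρ x) B
      rw [map_smul, act_smul]
    lie_smul := fun c x B => (act (r.ρ x)).map_smul c B }

/-- the elementary skew matrix -/
def el (i j : Fin 4) : Sk :=
  ⟨Matrix.single i j 1 - Matrix.single j i 1, by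
    rw [mem_Sk, Matrix.transpose_sub, Matrix.transpose_single, Matrix.transpose_single]
    abel⟩

lemma el_apply (i j k l : Fin 4) : (el i j : Matrix (Fin 4) (Fin 4) ℂ) k l =
    (if i = k then 1 else 0) * (if j = l then 1 else 0) -
      (if j = k then 1 else 0) * (if i = l then 1 else 0) := by
  show (Matrix.single i j (1:ℂ) - Matrix.single j i (1:ℂ) : Matrix (Fin 4) (Fin 4) ℂ) k l = _
  have key : ∀ (p q : Prop) [Decidable p] [Decidable q],
      (if p ∧ q then (1:ℂ) else 0) = (if p then 1 else 0) * (if q then 1 else 0) := by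
    intro p q _ _
    by_cases hp : p <;> by_cases hq : q <;> simp [hp, hq]
  rw [Matrix.sub_apply, Matrix.single_apply, Matrix.single_apply, key, key]

lemma el_swap (i j : Fin 4) : el i j = - el j i := by
  apply Subtype.ext
  ext k l
  rw [Submodule.coe_neg, Matrix.neg_apply, el_apply, el_apply]
  ring

lemma el_act (X : Matrix (Fin 4) (Fin 4) ℂ) (i j : Fin 4) :
    act X (el i j) = ∑ a, X a i • el a j + ∑ a, X a j • el i a := by
  apply Subtype.ext
  ext k l
  rw [act_coe, Submodule.coe_add, Submodule.coe_sum, Submodule.coe_sum, Matrix.add_apply,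
    Matrix.add_apply, Matrix.sum_apply, Matrix.sum_apply, Matrix.mul_apply, Matrix.mul_apply]
  simp only [Submodule.coe_smul, Matrix.smul_apply, smul_eq_mul, Matrix.transpose_apply]
  simp only [el_apply, Fin.sum_univ_four]
  fin_cases i <;> fin_cases j <;> fin_cases k <;> fin_cases l <;> simp <;> ring

lemma Sk_exp (B : Sk) : B = (1 / 2 : ℂ) • ∑ i, ∑ j, B.1 i j • el i j := by
  apply Subtype.ext
  ext k l
  rw [Submodule.coe_smul, Matrix.smul_apply, Submodule.coe_sum, Matrix.sum_apply]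
  simp only [Submodule.coe_sum, Matrix.sum_apply, Submodule.coe_smul, Matrix.smul_apply,
    smul_eq_mul, el_apply]
  have h := Sk_apply B.2 k l
  simp only [Fin.sum_univ_four]
  fin_cases k <;> fin_cases l <;> simp at h ⊢ <;> linear_combination (1 / 2) * h

/-! ### the quadratic form -/

/-- the symmetric form given by the Pfaffian -/
noncomputable def pf : Sk →ₗ[ℂ] Sk →ₗ[ℂ] ℂ :=
  LinearMap.mk₂ ℂ (fun A B => A.1 0 1 * B.1 2 3 - A.1 0 2 * B.1 1 3 + A.1 0 3 * B.1 1 2 +
    A.1 1 2 * B.1 0 3 - A.1 1 3 * B.1 0 2 + A.1 2 3 * B.1 0 1)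
    (fun A A' B => by simp only [Submodule.coe_add, Matrix.add_apply]; ring)
    (fun c A B => by simp only [Submodule.coe_smul, Matrix.smul_apply, smul_eq_mul]; ring)
    (fun A B B' => by simp only [Submodule.coe_add, Matrix.add_apply]; ring)
    (fun c A B => by simp only [Submodule.coe_smul, Matrix.smul_apply, smul_eq_mul]; ring)

lemma pf_apply (A B : Sk) : pf A B = A.1 0 1 * B.1 2 3 - A.1 0 2 * B.1 1 3 + A.1 0 3 * B.1 1 2 +
    A.1 1 2 * B.1 0 3 - A.1 1 3 * B.1 0 2 + A.1 2 3 * B.1 0 1 := rfl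

lemma pf_symm (A B : Sk) : pf A B = pf B A := by
  rw [pf_apply, pf_apply]; ring

lemma pf_act (X : Matrix (Fin 4) (Fin 4) ℂ) (hX : X 0 0 + X 1 1 + X 2 2 + X 3 3 = 0) (A B : Sk) :
    pf (act X A) B = - pf A (act X B) := by
  have hA := fun i j => Sk_apply A.2 i j
  have hB := fun i j => Sk_apply B.2 i j
  have hA0 : ∀ i, A.1 i i = 0 := fun i => by linear_combination (hA i i) / 2
  have hB0 : ∀ i, B.1 i i = 0 := fun i => by linear_combination (hB i i) / 2
  rw [pf_apply, pf_apply]
  simp only [act_coe, Matrix.add_apply, Matrix.mul_apply, Matrix.transpose_apply,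
    Fin.sum_univ_four]
  simp only [hA 1 0, hA 2 0, hA 2 1, hA 3 1, hA 3 2, hB 1 0, hB 2 0, hB 2 1,
    hB 3 1, hB 3 2, hA0, hB0]
  linear_combination (A.1 0 1 * B.1 2 3 - A.1 0 2 * B.1 1 3 + A.1 0 3 * B.1 1 2 +
    A.1 1 2 * B.1 0 3 - A.1 1 3 * B.1 0 2 + A.1 2 3 * B.1 0 1) * hX

lemma Sk_zero {A : Sk} (h1 : A.1 0 1 = 0) (h2 : A.1 0 2 = 0) (h3 : A.1 0 3 = 0)
    (h4 : A.1 1 2 = 0) (h5 : A.1 1 3 = 0) (h6 : A.1 2 3 = 0) : A = 0 := by
  have hA := fun i j => Sk_apply A.2 i j
  have hA0 : ∀ i, A.1 i i = 0 := fun i => by linear_combination (hA i i) / 2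
  apply Subtype.ext
  ext i j
  rw [Submodule.coe_zero, Matrix.zero_apply]
  fin_cases i <;> fin_cases j
  · exact hA0 0
  · exact h1
  · exact h2
  · exact h3
  · have := hA 1 0; rw [h1, neg_zero] at this; exact this
  · exact hA0 1
  · exact h4
  · exact h5
  · have := hA 2 0; rw [h2, neg_zero] at this; exact this
  · have := hA 2 1; rw [h4, neg_zero] at this; exact this
  · exact hA0 2
  · exact h6
  · have := hA 3 0; rw [h3, neg_zero] at this; exact this
  · have := hA 3 1; rw [h5, neg_zero] at this; exact this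
  · have := hA 3 2; rw [h6, neg_zero] at this; exact this
  · exact hA0 3

lemma pf_nd (A : Sk) (h : ∀ B, pf A B = 0) : A = 0 := by
  have e := fun i j => h (el i j)
  simp only [pf_apply, el_apply] at e
  have e01 := e 0 1
  have e02 := e 0 2
  have e03 := e 0 3
  have e12 := e 1 2
  have e13 := e 1 3
  have e23 := e 2 3
  simp at e01 e02 e03 e12 e13 e23
  exact Sk_zero e23 e13 e12 e03 e02 e01

lemma finrank_Sk : finrank ℂ Sk = 6 := by
  let c : Sk →ₗ[ℂ] (Fin 6 → ℂ) :=
    { toFun := fun A => ![A.1 0 1, A.1 0 2, A.1 0 3, A.1 1 2, A.1 1 3, A.1 2 3]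
      map_add' := fun A B => by
        ext i; fin_cases i <;> simp
      map_smul' := fun t A => by
        ext i; fin_cases i <;> simp }
  have hinj : Function.Injective c := by
    rw [injective_iff_map_eq_zero]
    intro A hA
    exact Sk_zero (congrFun hA 0) (congrFun hA 1) (congrFun hA 2) (congrFun hA 3) (congrFun hA 4)
      (congrFun hA 5)
  have hsurj : Function.Surjective c := by
    intro w
    refine ⟨w 0 • el 0 1 + w 1 • el 0 2 + w 2 • el 0 3 + w 3 • el 1 2 + w 4 • el 1 3 +
      w 5 • el 2 3, ?_⟩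
    ext i
    show ![_, _, _, _, _, _] i = w i
    fin_cases i <;> simp [el_apply]
  rw [(LinearEquiv.ofBijective c ⟨hinj, hsurj⟩).finrank_eq, Module.finrank_fintype_fun_eq_card,
    Fintype.card_fin]

/-! ### irreducibility from the commutant -/

theorem irr_of_comm {L : Type*} [LieRing L] [LieAlgebra ℂ L] [FiniteDimensional ℂ L]
    [IsKilling ℂ L] {W : Type} [AddCommGroup W] [Module ℂ W] [LieRingModule L W]
    [LieModule ℂ L W] [FiniteDimensional ℂ W] [Nontrivial W]
    (hcomm : ∀ T : W →ₗ[ℂ] W, (∀ (x : L) w, T ⁅x, w⁆ = ⁅x, T w⁆) → ∃ c : ℂ, ∀ w, T w = c • w) :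
    LieModule.IsIrreducible ℂ L W := by
  apply LieModule.IsIrreducible.mk
  intro N hN
  let M : LieSubmodule ℂ L (W →ₗ[ℂ] W) :=
    { carrier := {T | (∀ w, T w ∈ N) ∧ ∃ c : ℂ, ∀ w ∈ N, T w = c • w}
      zero_mem' := ⟨fun w => by rw [LinearMap.zero_apply]; exact N.zero_mem, 0, fun w _ => by
        rw [LinearMap.zero_apply, zero_smul]⟩
      add_mem' := by
        rintro S T ⟨h1, c, hc⟩ ⟨h2, d, hd⟩
        exact ⟨fun w => by rw [LinearMap.add_apply]; exact N.add_mem (h1 w) (h2 w), c + d,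
          fun w hw => by rw [LinearMap.add_apply, hc w hw, hd w hw, add_smul]⟩
      smul_mem' := by
        rintro t T ⟨h2, d, hd⟩
        exact ⟨fun w => by rw [LinearMap.smul_apply]; exact N.smul_mem t (h2 w), t * d,
          fun w hw => by rw [LinearMap.smul_apply, hd w hw, smul_smul]⟩
      lie_mem := by
        rintro x T ⟨h2, d, hd⟩
        refine ⟨fun w => ?_, 0, fun w hw => ?_⟩
        · rw [LieHom.lie_apply]
          exact N.sub_mem (N.lie_mem (h2 w)) (h2 _)
        · rw [LieHom.lie_apply, hd w hw, hd _ (N.lie_mem hw), lie_smul, sub_self, zero_smul] }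
  let f : M →ₗ[ℂ] ℂ := (LinearMap.trace ℂ W).comp (M : Submodule ℂ (W →ₗ[ℂ] W)).subtype
  have hf1 : ∀ (x : L) (T : M), f ⁅x, T⁆ = 0 := by
    intro x T
    show LinearMap.trace ℂ W ⁅x, (T : W →ₗ[ℂ] W)⁆ = 0
    have h1 : ⁅x, (T : W →ₗ[ℂ] W)⁆ = toEnd ℂ L W x * (T : W →ₗ[ℂ] W) -
        (T : W →ₗ[ℂ] W) * toEnd ℂ L W x := by
      apply LinearMap.ext
      intro w
      rfl
    rw [h1, map_sub, LinearMap.trace_mul_comm, sub_self]
  obtain ⟨N', hN'⟩ := Submodule.exists_isCompl (N : Submodule ℂ W)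
  have hproj : LinearMap.IsProj (N : Submodule ℂ W)
      ((N : Submodule ℂ W).subtype.comp (Submodule.projectionOnto _ _ hN')) :=
    ⟨fun w => by
      rw [LinearMap.comp_apply, Submodule.subtype_apply]
      exact Submodule.coe_mem _, fun w hw => by
      rw [LinearMap.comp_apply, Submodule.subtype_apply]
      exact congrArg Subtype.val (Submodule.projectionOnto_apply_left hN' ⟨w, hw⟩)⟩
  have htr := hproj.trace
  have hfr : (finrank ℂ (N : Submodule ℂ W) : ℂ) ≠ 0 := by
    have h1 : 0 < finrank ℂ (N : Submodule ℂ W) := by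
      rw [Module.finrank_pos_iff]
      rw [Submodule.nontrivial_iff_ne_bot]
      intro h2
      apply hN
      rw [← LieSubmodule.toSubmodule_eq_bot]
      exact h2
    exact_mod_cast h1.ne'
  have hf2 : f ≠ 0 := by
    intro h0
    apply hfr
    rw [← htr]
    have h1 := congrArg (fun g => g ⟨_, (⟨hproj.map_mem, 1, fun w hw => by
      rw [hproj.map_id w hw, one_smul]⟩ :
        ((N : Submodule ℂ W).subtype.comp (Submodule.projectionOnto _ _ hN')) ∈ M)⟩) h0
    exact h1
  obtain ⟨⟨T, hT⟩, hT1, hT2⟩ := weyl_lite (L := L) (finrank ℂ M) M le_rfl f hf1 hf2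
  have hT3 : ∀ (x : L) w, T ⁅x, w⁆ = ⁅x, T w⁆ := by
    intro x w
    have h1 : ⁅x, T⁆ = 0 := congrArg Subtype.val (hT1 x)
    have h2 := LinearMap.congr_fun h1 w
    rw [LieHom.lie_apply, LinearMap.zero_apply, sub_eq_zero] at h2
    exact h2.symm
  obtain ⟨c, hc⟩ := hcomm T hT3
  have hc0 : c ≠ 0 := by
    rintro rfl
    apply hT2
    show LinearMap.trace ℂ W T = 0
    have h1 : T = 0 := by
      apply LinearMap.ext
      intro w
      rw [hc w, zero_smul, LinearMap.zero_apply]
    rw [h1, map_zero]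
  rw [eq_top_iff]
  intro w _
  have h1 := hT.1 w
  rw [hc w] at h1
  have h2 := N.smul_mem c⁻¹ h1
  rwa [smul_smul, inv_mul_cancel₀ hc0, one_smul] at h2

end Pool.Agent.Helper30.AF
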