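import Pool.Agent.Helper30.AF.SlFour

/-!
An irreducible representation of dimension four which is not self-dual has image `sl_4`.
-/

open Module LieAlgebra LieModule

namespace Pool.Agent.Helper30.AF

open Pool.Agent.Helper8 Pool.Agent.Helper7

set_option linter.unusedSectionVars false

/-- the invariant tensors in an adapted basis are scalar -/
theorem scal_core {L : Type*} [LieRing L] [LieAlgebra ℂ L] [FiniteDimensional ℂ L]
    [LieAlgebra.IsKilling ℂ L] {V V' : Type*} [AddCommGroup V] [Module ℂ V] [LieRingModule L V]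
    [LieModule ℂ L V] [FiniteDimensional ℂ V] [LieModule.IsIrreducible ℂ L V]
    [AddCommGroup V'] [Module ℂ V'] [LieRingModule L V'] [LieModule ℂ L V']
    [FiniteDimensional ℂ V'] (hd : Module.finrank ℂ V = 4) (β : V →ₗ[ℂ] V' →ₗ[ℂ] ℂ)
    (hns : ∀ γ : V →ₗ[ℂ] V →ₗ[ℂ] ℂ, (∀ (x : L) u v, γ ⁅x, u⁆ v + γ u ⁅x, v⁆ = 0) → γ = 0)
    {p : Principal L} {b : Basis (Fin 4) ℂ V} {b' : Basis (Fin 4) ℂ V'} (D : DB β b b')
    (hb : (⁅p.h, b 0⁆ = (3 : ℂ) • b 0 ∧ ⁅p.h, b 1⁆ = (1 : ℂ) • b 1 ∧ ⁅p.h, b 2⁆ = (-1 : ℂ) • b 2 ∧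
        ⁅p.h, b 3⁆ = (-3 : ℂ) • b 3 ∧ ⁅p.f, b 0⁆ = b 1 ∧ ⁅p.f, b 1⁆ = b 2 ∧ ⁅p.f, b 2⁆ = b 3 ∧
        ⁅p.f, b 3⁆ = 0) ∨
      (⁅p.h, b 0⁆ = (2 : ℂ) • b 0 ∧ ⁅p.h, b 1⁆ = (0 : ℂ) • b 1 ∧ ⁅p.h, b 2⁆ = (-2 : ℂ) • b 2 ∧
        ⁅p.h, b 3⁆ = (0 : ℂ) • b 3 ∧ ⁅p.f, b 0⁆ = b 1 ∧ ⁅p.f, b 1⁆ = b 2 ∧ ⁅p.f, b 2⁆ = 0 ∧
        ⁅p.f, b 3⁆ = 0))
    (R : Fin 4 → Fin 4 → Fin 4 → Fin 4 → ℂ) (hA : Alt R)
    (hE0 : ∀ g : L, EqX R (mx β b b' g)) : Scal R := by
  set S : Set (Fin 4 → Fin 4 → ℂ) := Set.range (fun g : L => mx β b b' g) with hS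
  have hE : ∀ X ∈ S, EqX R X := by
    rintro X ⟨g, rfl⟩
    exact hE0 g
  have htr : ∀ X ∈ S, X 0 0 + X 1 1 + X 2 2 + X 3 3 = 0 := by
    rintro X ⟨g, rfl⟩
    exact trace_zero D g
  -- the matrix of a diagonal element
  have hdg : ∀ (g : L) (w : Fin 4 → ℂ), (∀ i, ⁅g, b i⁆ = w i • b i) → dg w ∈ S := by
    intro g w hw
    refine ⟨g, ?_⟩
    funext a i
    show β ⁅g, b i⁆ (b' a) = if a = i then w i else 0
    rw [hw, map_smul, LinearMap.smul_apply, D.eq, smul_eq_mul]
    by_cases h : i = a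
    · rw [if_pos h, if_pos h.symm, mul_one]
    · rw [if_neg h, if_neg (Ne.symm h), mul_zero]
  -- invariant forms
  have hform : (∃ G : Fin 4 → Fin 4 → ℂ, G ≠ 0 ∧ ∀ X ∈ S, Skew G X) → False := by
    rintro ⟨G, hG0, hG⟩
    apply hG0
    set γ : V →ₗ[ℂ] V →ₗ[ℂ] ℂ := Matrix.toLinearMap₂ b b (Matrix.of G) with hγ
    have hγb : ∀ i j, γ (b i) (b j) = G i j := by
      intro i j
      rw [hγ, Matrix.toLinearMap₂_apply_basis, Matrix.of_apply]
    have hz : γ = 0 := by
      apply hns
      intro g u v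
      have h : γ.comp (toEnd ℂ L V g) + γ.compl₂ (toEnd ℂ L V g) = 0 := by
        apply b.ext
        intro i
        apply b.ext
        intro j
        have h3 := hG _ ⟨g, rfl⟩ i j
        simp only [LinearMap.add_apply, LinearMap.comp_apply, LinearMap.compl₂_apply,
          LieModule.toEnd_apply_apply, LinearMap.zero_apply]
        rw [D.lie g i, D.lie g j]
        simp only [map_sum, map_smul, LinearMap.sum_apply, LinearMap.smul_apply, smul_eq_mul,
          hγb]
        exact h3
      have h3 := LinearMap.congr_fun (LinearMap.congr_fun h u) v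
      simpa only [LinearMap.add_apply, LinearMap.comp_apply, LinearMap.compl₂_apply,
          LieModule.toEnd_apply_apply, LinearMap.zero_apply] using h3
    funext i j
    rw [← hγb, hz]
    rfl
  rcases hb with ⟨k0, k1, k2, k3, f0, f1, f2, f3⟩ | ⟨k0, k1, k2, k3, f0, f1, f2, f3⟩
  · have hF : fA ∈ S := by
      refine ⟨p.f, ?_⟩
      funext a i
      show β ⁅p.f, b i⁆ (b' a) = _
      fin_cases i <;> fin_cases a <;> simp [f0, f1, f2, f3, D.eq, fA]
    rcases algA hA S hE htr (w := ![3, 1, -1, -3]) rfl rfl rfl rfl (hdg p.h _ (by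
      intro i
      fin_cases i
      · exact k0
      · exact k1
      · exact k2
      · exact k3)) hF with h | h
    · exact h
    · exact (hform h).elim
  · have hF : fB ∈ S := by
      refine ⟨p.f, ?_⟩
      funext a i
      show β ⁅p.f, b i⁆ (b' a) = _
      fin_cases i <;> fin_cases a <;> simp [f0, f1, f2, f3, D.eq, fB]
    rcases algB hA S hE htr (w := ![2, 0, -2, 0]) rfl rfl rfl rfl (hdg p.h _ (by
      intro i
      fin_cases i
      · exact k0
      · exact k1
      · exact k2
      · exact k3)) hF with h | h | h | h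
    · exact h
    · exact (hform h).elim
    · exfalso
      rcases irr_cases (L := L) (LinearMap.ker (β.flip (b' 3))) (by
        intro g v hv
        rw [LinearMap.mem_ker, LinearMap.flip_apply] at hv ⊢
        obtain ⟨a0, a1, a2⟩ := h _ ⟨g, rfl⟩
        simp only [mx] at a0 a1 a2
        rw [D.exp v, Fin.sum_univ_four]
        simp only [lie_add, lie_smul, map_add, map_smul, LinearMap.add_apply,
          LinearMap.smul_apply, smul_eq_mul, a0, a1, a2, hv]
        ring) with h3 | h3
      · have h4 : b 0 ∈ LinearMap.ker (β.flip (b' 3)) := by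
          rw [LinearMap.mem_ker, LinearMap.flip_apply, D.eq]
          rfl
        rw [h3, Submodule.mem_bot] at h4
        exact b.ne_zero 0 h4
      · have h4 : b 3 ∈ LinearMap.ker (β.flip (b' 3)) := by rw [h3]; trivial
        rw [LinearMap.mem_ker, LinearMap.flip_apply, D.eq, if_pos rfl] at h4
        exact one_ne_zero h4
    · exfalso
      rcases irr_cases (L := L) (Submodule.span ℂ {b 3}) (by
        intro g v hv
        obtain ⟨c, rfl⟩ := Submodule.mem_span_singleton.mp hv
        obtain ⟨a0, a1, a2⟩ := h _ ⟨g, rfl⟩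
        beta_reduce at a0 a1 a2
        rw [lie_smul, D.lie g 3, Fin.sum_univ_four, a0, a1, a2]
        simp only [zero_smul, zero_add]
        exact Submodule.smul_mem _ _ (Submodule.smul_mem _ _
          (Submodule.mem_span_singleton_self _))) with h3 | h3
      · rw [Submodule.span_singleton_eq_bot] at h3
        exact b.ne_zero 3 h3
      · have h2 : finrank ℂ (Submodule.span ℂ {b 3}) ≤ 1 := by
          have := finrank_span_le_card (R := ℂ) ({b 3} : Set V)
          simpa using this
        rw [h3, finrank_top, hd] at h2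
        omega


lemma act_zero {Z : Matrix (Fin 4) (Fin 4) ℂ} (h : ∀ B : Sk, act Z B = 0) : Z = 0 := by
  have h' : ∀ i j k l, (act Z (el i j) : Matrix (Fin 4) (Fin 4) ℂ) k l = 0 := by
    intro i j k l
    rw [h, Submodule.coe_zero, Matrix.zero_apply]
  have key : ∀ i j k l, ∑ a, Z k a * (el i j : Matrix (Fin 4) (Fin 4) ℂ) a l +
      ∑ a, (el i j : Matrix (Fin 4) (Fin 4) ℂ) k a * Z l a = 0 := by
    intro i j k l
    have h1 := h' i j k l
    rw [act_coe, Matrix.add_apply, Matrix.mul_apply, Matrix.mul_apply] at h1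
    exact h1
  have off : ∀ i j k : Fin 4, i ≠ j → k ≠ i → k ≠ j → Z k i = 0 := by
    intro i j k hij hki hkj
    have h1 := key i j k j
    simp only [el_apply] at h1
    simpa [hij, hij.symm, hki, hki.symm, hkj, hkj.symm] using h1
  have dia : ∀ i j : Fin 4, i ≠ j → Z i i + Z j j = 0 := by
    intro i j hij
    have h1 := key i j i j
    simp only [el_apply] at h1
    simpa [hij, hij.symm] using h1
  have d01 := dia 0 1 (by decide)
  have d02 := dia 0 2 (by decide)
  have d12 := dia 1 2 (by decide)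
  have d03 := dia 0 3 (by decide)
  have z0 : Z 0 0 = 0 := by linear_combination (d01 + d02 - d12) / 2
  ext k i
  rw [Matrix.zero_apply]
  by_cases hki : k = i
  · subst hki
    fin_cases k
    · exact z0
    · show Z 1 1 = 0
      linear_combination d01 - z0
    · show Z 2 2 = 0
      linear_combination d02 - z0
    · show Z 3 3 = 0
      linear_combination d03 - z0
  · obtain ⟨j, hj1, hj2⟩ : ∃ j : Fin 4, i ≠ j ∧ k ≠ j := by
      revert i k; decide
    exact off i j k hj1 hki hj2

end Pool.Agent.Helper30.AF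

namespace Pool.Agent.Helper7

open Pool.Agent.Helper8 Pool.Agent.Helper30.AF

/-- W1: the image of an irreducible four-dimensional representation which is not self-dual. -/
theorem sl_four {L : Type*} [LieRing L] [LieAlgebra ℂ L] [FiniteDimensional ℂ L]
    [LieAlgebra.IsKilling ℂ L] {V : Type*} [AddCommGroup V] [Module ℂ V]
    [LieRingModule L V] [LieModule ℂ L V] [FiniteDimensional ℂ V] [LieModule.IsIrreducible ℂ L V]
    (hd : finrank ℂ V = 4)
    (hns : ∀ γ : V →ₗ[ℂ] V →ₗ[ℂ] ℂ, (∀ (x : L) u v, γ ⁅x, u⁆ v + γ u ⁅x, v⁆ = 0) → γ = 0)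
    (Y : Module.End ℂ V) (hY : LinearMap.trace ℂ V Y = 0) : ∃ x : L, ∀ v, ⁅x, v⁆ = Y v := by
  obtain ⟨p⟩ := exists_principal L
  obtain ⟨m, x, T⟩ := exists_top (V := V) p
  obtain ⟨b, hb⟩ := T.basis hd
  let β : V →ₗ[ℂ] (V →ₗ[ℂ] ℂ) →ₗ[ℂ] ℂ := Module.Dual.eval ℂ V
  have hβ : ∀ v (f : V →ₗ[ℂ] ℂ), β v f = f v := fun _ _ => rfl
  obtain ⟨b', D⟩ := exists_db β (fun u hu => by
    by_contra h0
    obtain ⟨f, hf⟩ := Module.exists_dual_forall_apply_ne_zero (K := ℂ) (fun _ : Unit => u) (fun _ => h0)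
    exact hf () (hu f)) (fun f hf => LinearMap.ext fun u => hf u) b
  -- the representation on skew matrices
  let r : MRep L :=
    { ρ :=
        { toFun := fun g => Matrix.of (mx β b b' g)
          map_add' := fun g h => by
            ext a i
            rw [Matrix.add_apply]
            simp only [Matrix.of_apply, mx, add_lie, map_add, LinearMap.add_apply]
          map_smul' := fun c g => by
            ext a i
            rw [Matrix.smul_apply]
            simp only [Matrix.of_apply, mx, smul_lie, map_smul, LinearMap.smul_apply,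
              RingHom.id_apply] }
      lie := fun g h => by
        ext a i
        show mx β b b' ⁅g, h⁆ a i = _
        rw [Matrix.sub_apply, Matrix.mul_apply, Matrix.mul_apply]
        simp only [LinearMap.coe_mk, AddHom.coe_mk, Matrix.of_apply]
        have e1 : mx β b b' ⁅g, h⁆ a i = β ⁅g, ⁅h, b i⁆⁆ (b' a) - β ⁅h, ⁅g, b i⁆⁆ (b' a) := by
          rw [mx, lie_lie, map_sub, LinearMap.sub_apply]
        have e2 : ∀ g h : L, β ⁅g, ⁅h, b i⁆⁆ (b' a) = ∑ j, mx β b b' g a j * mx β b b' h j i := by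
          intro g h
          rw [D.lie h i]
          simp only [lie_sum, lie_smul, map_sum, map_smul, LinearMap.sum_apply,
            LinearMap.smul_apply, smul_eq_mul]
          exact Finset.sum_congr rfl fun j _ => mul_comm _ _
        rw [e1, e2, e2] }
  have hr : ∀ g a i, r.ρ g a i = mx β b b' g a i := fun _ _ _ => rfl
  let _ := skLRM r
  have : LieModule ℂ L Sk := skLM r
  have hbr : ∀ (g : L) (B : Sk), ⁅g, B⁆ = act (r.ρ g) B := fun _ _ => rfl
  have : Nontrivial Sk := Module.nontrivial_of_finrank_pos (R := ℂ) (by rw [finrank_Sk]; norm_num)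
  have : LieModule.IsIrreducible ℂ L Sk := by
    apply irr_of_comm
    intro T hT
    set R : Fin 4 → Fin 4 → Fin 4 → Fin 4 → ℂ := fun i j k l => (T (el i j)).1 k l with hR
    have hA : Alt R := by
      refine ⟨fun i j k l => ?_, fun i j k l => Sk_apply (T (el i j)).2 k l⟩
      simp only [hR]
      rw [el_swap, map_neg, Submodule.coe_neg, Matrix.neg_apply]
    have hE : ∀ g : L, EqX R (mx β b b' g) := by
      intro g i j k l
      have h1 := congrArg (fun B : Sk => B.1 k l) (hT g (el i j))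
      simp only [hbr] at h1
      rw [el_act, map_add, map_sum, map_sum, act_coe, Submodule.coe_add, Submodule.coe_sum,
        Submodule.coe_sum, Matrix.add_apply, Matrix.add_apply, Matrix.sum_apply,
        Matrix.sum_apply, Matrix.mul_apply, Matrix.mul_apply] at h1
      simp only [map_smul, Submodule.coe_smul, Matrix.smul_apply, smul_eq_mul,
        Matrix.transpose_apply, hr] at h1
      simp only [hR]
      have h2 : ∑ a, mx β b b' g l a * (T (el i j)).1 k a =
          ∑ a, (T (el i j)).1 k a * mx β b b' g l a :=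
        Finset.sum_congr rfl fun a _ => mul_comm _ _
      rw [h2]
      linear_combination h1
    obtain ⟨c, hc⟩ := scal_core hd β hns D hb R hA hE
    refine ⟨c, fun w => ?_⟩
    have h1 : ∀ i j, T (el i j) = c • el i j := by
      intro i j
      apply Subtype.ext
      ext k l
      have h2 := hc i j k l
      simp only [hR] at h2
      rw [h2, Submodule.coe_smul, Matrix.smul_apply, smul_eq_mul, el_apply]
      ring
    rw [Sk_exp w, map_smul, map_sum, smul_comm c]
    congr 1
    rw [Finset.smul_sum]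
    refine Finset.sum_congr rfl fun i _ => ?_
    rw [map_sum, Finset.smul_sum]
    refine Finset.sum_congr rfl fun j _ => ?_
    rw [map_smul, h1, smul_comm]
  -- the matrix of `Y`
  set MY : Matrix (Fin 4) (Fin 4) ℂ := Matrix.of fun a i => β (Y (b i)) (b' a) with hMY
  have hYtr : MY 0 0 + MY 1 1 + MY 2 2 + MY 3 3 = 0 := by
    rw [LinearMap.trace_eq_matrix_trace ℂ b, Matrix.trace, Fin.sum_univ_four] at hY
    simp only [Matrix.diag_apply, LinearMap.toMatrix_apply, D.repr] at hY
    exact hY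
  have hO : Orth L pf := ⟨pf_symm, pf_nd, fun g A B => by
    rw [hbr, hbr]
    exact pf_act _ (trace_zero D g) A B⟩
  obtain ⟨g, hg⟩ := orth_six hO finrank_Sk (act MY) (fun A B => pf_act MY hYtr A B)
  have hZ : r.ρ g - MY = 0 := by
    apply act_zero
    intro B
    have h1 := hg B
    rw [hbr] at h1
    have h2 : act (r.ρ g - MY) B = act (r.ρ g) B - act MY B := by
      rw [sub_eq_add_neg, act_add, ← neg_one_smul ℂ MY, act_smul, neg_one_smul ℂ (act MY B),
        sub_eq_add_neg]
    rw [h2, h1, sub_self]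
  refine ⟨g, fun v => ?_⟩
  have h1 : toEnd ℂ L V g = Y := by
    apply b.ext
    intro i
    rw [LieModule.toEnd_apply_apply, D.exp ⁅g, b i⁆, D.exp (Y (b i))]
    refine Finset.sum_congr rfl fun a _ => ?_
    congr 1
    have h2 := congrFun (congrFun hZ a) i
    rw [Matrix.sub_apply, Matrix.zero_apply, sub_eq_zero] at h2
    exact h2
  rw [← h1]
  rfl

end Pool.Agent.Helper7
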